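import Pool.Agent.Lib.MP_806e08_lc.Count

/-!
The count-level algorithm for bipartite conflict graphs.
-/

namespace Pool.Agent.Lib.MP_806e08_lc

open Classical

variable {V : Type} [Fintype V]

lemma exists_gap (d : V → ℕ) : ∃ i, i ≤ Fintype.card V ∧ ∀ p, d p ≠ i := by
  by_contra h
  push Not at h
  have hsub : Finset.range (Fintype.card V + 1) ⊆ Finset.univ.image d := by
    intro i hi
    obtain ⟨p, hp⟩ := h i (by simpa [Nat.lt_succ_iff] using hi)
    exact Finset.mem_image.mpr ⟨p, Finset.mem_univ _, hp⟩
  have h1 := Finset.card_le_card hsub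
  have h2 : (Finset.univ.image d).card ≤ Fintype.card V :=
    Finset.card_image_le.trans (by simp)
  simp at h1
  omega

lemma exists_side (c : V → Fin 2) (d : V → ℕ) : ∃ s, ∀ q, ∃ p, c p = s ∧ d q ≤ d p := by
  rcases isEmpty_or_nonempty V with h | h
  · exact ⟨0, fun q => h.elim q⟩
  · obtain ⟨p, hp⟩ := Finite.exists_max d
    exact ⟨c p, fun q => ⟨p, rfl, hp q⟩⟩

noncomputable def gapIdx (d : V → ℕ) : ℕ := Classical.choose (exists_gap d)

noncomputable def side (c : V → Fin 2) (d : V → ℕ) : Fin 2 := Classical.choose (exists_side c d)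

def Old (a : ℕ) (d : V → ℕ) (p : V) : Prop := gapIdx (fun q => d q / a) < d p / a

def Runs (G : SimpleGraph V) (c : V → Fin 2) (a : ℕ) (d : V → ℕ) (p : V) : Prop :=
  Old a d p ∧ (c p = side c d ∨ ∀ q, G.Adj p q → ¬ (Old a d q ∧ c q = side c d))

lemma Old.ge {a : ℕ} (ha : 0 < a) {d : V → ℕ} {p : V} (h : Old a d p) : a ≤ d p := by
  unfold Old at h
  have : 1 ≤ d p / a := by omega
  exact (Nat.one_le_div_iff ha).mp this

lemma not_old_lt {a : ℕ} (ha : 0 < a) {d : V → ℕ} {p : V} (h : ¬ Old a d p) :
    d p < gapIdx (fun q => d q / a) * a := by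
  unfold Old at h
  have h1 := (Classical.choose_spec (exists_gap (fun q => d q / a))).2 p
  have h2 : d p / a < gapIdx (fun q => d q / a) := by
    unfold gapIdx at h ⊢
    omega
  exact (Nat.div_lt_iff_lt_mul ha).mp h2

lemma not_old_lt_card {a : ℕ} (ha : 0 < a) {d : V → ℕ} {p : V} (h : ¬ Old a d p) :
    d p < Fintype.card V * a := by
  have h1 := not_old_lt ha h
  have h2 : gapIdx (fun q => d q / a) ≤ Fintype.card V :=
    (Classical.choose_spec (exists_gap (fun q => d q / a))).1
  exact h1.trans_le (Nat.mul_le_mul_right a h2)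

lemma old_gap {a : ℕ} (ha : 0 < a) {d : V → ℕ} {p q : V} (hp : Old a d p) (hq : ¬ Old a d q) :
    d q + a < d p := by
  have h1 := not_old_lt ha hq
  unfold Old at hp
  have h2 : gapIdx (fun q => d q / a) + 1 ≤ d p / a := hp
  have h3 := (Nat.le_div_iff_mul_le ha).mp h2
  rw [Nat.add_mul] at h3
  omega

/-- Served counts of the bipartite algorithm. -/
noncomputable def bipY (G : SimpleGraph V) (c : V → Fin 2) (a : ℕ) (M : V → ℕ → ℕ) :
    ℕ → V → ℕ
  | 0 => fun _ => 0
  | t + 1 => fun p => bipY G c a M t p +
      if Runs G c a (fun q => t + 1 - hd (M q) (bipY G c a M t q) (t + 1)) p then 1 else 0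

lemma bipY_congr (G : SimpleGraph V) (c : V → Fin 2) (a : ℕ) {M M' : V → ℕ → ℕ} {t : ℕ}
    (h : ∀ u s, s ≤ t → M u s = M' u s) : ∀ s, s ≤ t → bipY G c a M s = bipY G c a M' s := by
  intro s
  induction s with
  | zero => intro _; rfl
  | succ n ih =>
    intro hs
    have ih' := ih (by omega)
    have hfun : (fun q => n + 1 - hd (M q) (bipY G c a M n q) (n + 1)) =
        (fun q => n + 1 - hd (M' q) (bipY G c a M' n q) (n + 1)) := by
      funext q
      rw [ih', hd_congr (fun s hs' => h q s (by omega))]
    funext p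
    simp only [bipY]
    rw [hfun, ih']

section Analysis

variable {G : SimpleGraph V} {c : V → Fin 2} {A : ℕ} {M : V → ℕ → ℕ}

/-- head of `q` at time `t` -/
noncomputable def bH (G : SimpleGraph V) (c : V → Fin 2) (A : ℕ) (M : V → ℕ → ℕ) (t : ℕ)
    (q : V) : ℕ := hd (M q) (bipY G c (A + 1) M t q) (t + 1)

/-- age of the head of `q` at time `t` -/
noncomputable def bD (G : SimpleGraph V) (c : V → Fin 2) (A : ℕ) (M : V → ℕ → ℕ) (t : ℕ) :
    V → ℕ := fun q => t + 1 - bH G c A M t q

lemma bipY_run {t : ℕ} {p : V} (h : Runs G c (A + 1) (bD G c A M t) p) :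
    bipY G c (A + 1) M (t + 1) p = bipY G c (A + 1) M t p + 1 := by
  have h' : Runs G c (A + 1)
      (fun q => t + 1 - hd (M q) (bipY G c (A + 1) M t q) (t + 1)) p := h
  simp only [bipY, h', if_true]

lemma bipY_idle {t : ℕ} {p : V} (h : ¬ Runs G c (A + 1) (bD G c A M t) p) :
    bipY G c (A + 1) M (t + 1) p = bipY G c (A + 1) M t p := by
  have h' : ¬ Runs G c (A + 1)
      (fun q => t + 1 - hd (M q) (bipY G c (A + 1) M t q) (t + 1)) p := h
  simp only [bipY, h', if_false, add_zero]

lemma bipY_le_succ (t : ℕ) (p : V) :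
    bipY G c (A + 1) M t p ≤ bipY G c (A + 1) M (t + 1) p := by
  by_cases h : Runs G c (A + 1) (bD G c A M t) p
  · rw [bipY_run h]; omega
  · rw [bipY_idle h]

lemma bipY_succ_le (t : ℕ) (p : V) :
    bipY G c (A + 1) M (t + 1) p ≤ bipY G c (A + 1) M t p + 1 := by
  by_cases h : Runs G c (A + 1) (bD G c A M t) p
  · rw [bipY_run h]
  · rw [bipY_idle h]; omega

lemma bH_le (t : ℕ) (q : V) : bH G c A M t q ≤ t + 1 := hd_le _ _ _

lemma bH_spec (hM : Arr M) (t : ℕ) (q : V) :
    M q (bH G c A M t q) ≤ bipY G c (A + 1) M t q := hd_spec (hM.zero q) _ _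

lemma bH_mono (hM : Arr M) (t : ℕ) (q : V) : bH G c A M t q ≤ bH G c A M (t + 1) q :=
  hd_mono (hM.zero q) (bipY_le_succ t q) (by omega)

lemma old_pending {t : ℕ} {p : V} (h : Old (A + 1) (bD G c A M t) p) :
    bH G c A M t p + (A + 1) ≤ t + 1 ∧
      bipY G c (A + 1) M t p < M p (bH G c A M t p + 1) := by
  have h1 := h.ge (by omega)
  have h2 : bH G c A M t p ≤ t + 1 := bH_le t p
  have h3 : bH G c A M t p + (A + 1) ≤ t + 1 := by
    unfold bD at h1
    omega
  exact ⟨h3, lt_of_hd_lt (C := t + 1) (Nat.lt_succ_self _) (by omega)⟩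

lemma bipY_upper (hM : Arr M) (t : ℕ) (p : V) : bipY G c (A + 1) M t p ≤ M p t := by
  induction t with
  | zero => simp [bipY]
  | succ n ih =>
    by_cases h : Runs G c (A + 1) (bD G c A M n) p
    · rw [bipY_run h]
      obtain ⟨h1, h2⟩ := old_pending h.1
      have := hM.mono p (show bH G c A M n p + 1 ≤ n + 1 by omega)
      omega
    · rw [bipY_idle h]
      exact ih.trans (hM.mono p (by omega))

omit [Fintype V] in
lemma edge_waste {Z : V → ℕ → ℕ} (hZ : Feasible G M A Z) {p q : V} (hpq : G.Adj p q) {x x' : ℕ}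
    (hx : x ≤ x') : Z p x' + Z q x' + x ≤ Z p x + Z q x + x' := by
  induction x', hx using Nat.le_induction with
  | base => omega
  | succ n _ ih =>
    have h1 := hZ.succ_le p n
    have h2 := hZ.succ_le q n
    by_cases h : Z p n < Z p (n + 1)
    · have := hZ.indep p q n hpq h
      omega
    · omega

omit [Fintype V] in
lemma vertex_waste {Z : V → ℕ → ℕ} (hZ : Feasible G M A Z) (p : V) {x x' : ℕ}
    (hx : x ≤ x') : Z p x' + x ≤ Z p x + x' := by
  induction x', hx using Nat.le_induction with
  | base => omega
  | succ n _ ih =>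
    have h1 := hZ.succ_le p n
    omega

lemma fin2_eq {x y s : Fin 2} (h1 : x ≠ y) (h2 : x ≠ s) : y = s := by
  revert x y s
  decide

lemma edge_inv (hc : ∀ p q, G.Adj p q → c p ≠ c q) (hM : Arr M) {Z : V → ℕ → ℕ}
    (hZ : Feasible G M A Z) (t : ℕ) :
    ∀ p q, G.Adj p q → ∀ x, bH G c A M t p ≤ x → bH G c A M t q ≤ x →
      t + Z p x + Z q x ≤ x + Fintype.card V * (A + 1) +
        bipY G c (A + 1) M t p + bipY G c (A + 1) M t q := by
  induction t with
  | zero =>
    intro p q hpq x _ _
    have := edge_waste hZ hpq (Nat.zero_le x)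
    rw [hZ.zero, hZ.zero] at this
    omega
  | succ t ih =>
    have key : ∀ p q, G.Adj p q → ¬ Runs G c (A + 1) (bD G c A M t) p →
        ¬ Runs G c (A + 1) (bD G c A M t) q → bH G c A M t p ≤ bH G c A M t q →
        ∀ x, bH G c A M t q ≤ x →
        t + 1 + Z p x + Z q x ≤ x + Fintype.card V * (A + 1) +
          bipY G c (A + 1) M t p + bipY G c (A + 1) M t q := by
      intro p q hpq hp hq hle x hx
      by_cases hold : Old (A + 1) (bD G c A M t) p
      · have hp' : c p ≠ side c (bD G c A M t) ∧
            ∃ y, G.Adj p y ∧ Old (A + 1) (bD G c A M t) y ∧ c y = side c (bD G c A M t) := by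
          unfold Runs at hp
          push Not at hp
          obtain ⟨h1, y, h2, h3⟩ := hp hold
          exact ⟨h1, y, h2, h3⟩
        obtain ⟨hcp, y, hpy, hyold, hcy⟩ := hp'
        have hcq : c q = side c (bD G c A M t) := fin2_eq (hc p q hpq) hcp
        have hqold : ¬ Old (A + 1) (bD G c A M t) q := fun h => hq ⟨h, Or.inl hcq⟩
        have hgap := old_gap (by omega) hyold hqold
        have hq1 : bH G c A M t q ≤ t + 1 := bH_le t q
        have hy1 : bH G c A M t y ≤ t + 1 := bH_le t y
        have hgap' : bH G c A M t y + (A + 1) < bH G c A M t q := by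
          unfold bD at hgap
          omega
        have h1 := ih p y hpy (bH G c A M t q) hle (by omega)
        have h2 := hZ.lower y (bH G c A M t q)
        have h3 := hM.mono y (show bH G c A M t y + 1 ≤ bH G c A M t q - A by omega)
        have h4 := (old_pending hyold).2
        have h5 := hZ.upper q (bH G c A M t q)
        have h6 := bH_spec (G := G) (c := c) (A := A) hM t q
        have h7 := edge_waste hZ hpq hx
        omega
      · have h1 := not_old_lt_card (by omega) hold
        have hp1 : bH G c A M t p ≤ t + 1 := bH_le t p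
        have h2 : t + 1 ≤ bH G c A M t p + Fintype.card V * (A + 1) := by
          unfold bD at h1
          omega
        have h3 := hZ.upper p (bH G c A M t p)
        have h4 := bH_spec (G := G) (c := c) (A := A) hM t p
        have h5 := hZ.upper q (bH G c A M t p)
        have h6 := hM.mono q hle
        have h7 := bH_spec (G := G) (c := c) (A := A) hM t q
        have h8 := edge_waste hZ hpq (hle.trans hx)
        omega
    intro p q hpq x hxp hxq
    have hxp' := (bH_mono (G := G) (c := c) (A := A) hM t p).trans hxp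
    have hxq' := (bH_mono (G := G) (c := c) (A := A) hM t q).trans hxq
    by_cases hp : Runs G c (A + 1) (bD G c A M t) p
    · have h1 := ih p q hpq x hxp' hxq'
      have h2 := bipY_run hp
      have h3 := bipY_le_succ (G := G) (c := c) (A := A) (M := M) t q
      omega
    · by_cases hq : Runs G c (A + 1) (bD G c A M t) q
      · have h1 := ih p q hpq x hxp' hxq'
        have h2 := bipY_run hq
        have h3 := bipY_le_succ (G := G) (c := c) (A := A) (M := M) t p
        omega
      · rw [bipY_idle hp, bipY_idle hq]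
        rcases le_total (bH G c A M t p) (bH G c A M t q) with hle | hle
        · exact key p q hpq hp hq hle x hxq'
        · have := key q p hpq.symm hq hp hle x hxp'
          omega

lemma isolated_inv (hM : Arr M) {Z : V → ℕ → ℕ} (hZ : Feasible G M A Z) {p : V}
    (hp : ∀ q, ¬ G.Adj p q) (t : ℕ) :
    ∀ x, bH G c A M t p ≤ x →
      t + Z p x ≤ x + Fintype.card V * (A + 1) + bipY G c (A + 1) M t p := by
  induction t with
  | zero =>
    intro x _
    have := vertex_waste hZ p (Nat.zero_le x)
    rw [hZ.zero] at this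
    omega
  | succ t ih =>
    intro x hx
    have hx' := (bH_mono (G := G) (c := c) (A := A) hM t p).trans hx
    by_cases hr : Runs G c (A + 1) (bD G c A M t) p
    · have h1 := ih x hx'
      have h2 := bipY_run hr
      omega
    · rw [bipY_idle hr]
      have hold : ¬ Old (A + 1) (bD G c A M t) p :=
        fun h => hr ⟨h, Or.inr fun q hq => (hp q hq).elim⟩
      have h1 := not_old_lt_card (by omega) hold
      have hp1 : bH G c A M t p ≤ t + 1 := bH_le t p
      have h2 : t + 1 ≤ bH G c A M t p + Fintype.card V * (A + 1) := by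
        unfold bD at h1
        omega
      have h3 := hZ.upper p (bH G c A M t p)
      have h4 := bH_spec (G := G) (c := c) (A := A) hM t p
      have h8 := vertex_waste hZ p hx'
      omega

lemma backlog (hc : ∀ p q, G.Adj p q → c p ≠ c q) (hM : Arr M) {Z : V → ℕ → ℕ}
    (hZ : Feasible G M A Z) (t : ℕ) (p : V) :
    M p (t + 1) ≤ bipY G c (A + 1) M t p + (Fintype.card V + 1) * (A + 1) := by
  have hp1 : bH G c A M t p ≤ t + 1 := bH_le t p
  have h0 := hZ.lower p (t + 1 + A)
  rw [show t + 1 + A - A = t + 1 by omega] at h0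
  rw [Nat.add_mul]
  by_cases hp : ∃ q, G.Adj p q
  · obtain ⟨q, hpq⟩ := hp
    have hq1 : bH G c A M t q ≤ t + 1 := bH_le t q
    have h1 := edge_inv hc hM hZ t p q hpq (t + 1 + A) (by omega) (by omega)
    have h2 := hZ.lower q (t + 1 + A)
    rw [show t + 1 + A - A = t + 1 by omega] at h2
    have h3 := bipY_upper (G := G) (c := c) (A := A) hM t q
    have h4 := hM.mono q (show t ≤ t + 1 by omega)
    omega
  · push Not at hp
    have h1 := isolated_inv (c := c) hM hZ hp t (t + 1 + A) (by omega)
    omega

lemma drain (hc : ∀ p q, G.Adj p q → c p ≠ c q) (hM : Arr M) {Z : V → ℕ → ℕ}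
    (hZ : Feasible G M A Z) (r : ℕ) (k : ℕ) :
    ∃ n : Fin 2 → ℕ, n 0 + n 1 = k ∧
      (∀ p, M p r ≤ bipY G c (A + 1) M (r + Fintype.card V * (A + 1) + k) p ∨
        bipY G c (A + 1) M (r + Fintype.card V * (A + 1)) p + n (c p) ≤
          bipY G c (A + 1) M (r + Fintype.card V * (A + 1) + k) p) ∧
      ((∀ p, M p r ≤ bipY G c (A + 1) M (r + Fintype.card V * (A + 1) + k) p) ∨
        ∀ s, n s ≤ (Fintype.card V + 1) * (A + 1)) := by
  set T := r + Fintype.card V * (A + 1) with hT
  induction k with
  | zero => exact ⟨fun _ => 0, rfl, fun p => Or.inr (by simp), Or.inr fun _ => by simp⟩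
  | succ k ih =>
    obtain ⟨n, hn, h1, h2⟩ := ih
    set S := side c (bD G c A M (T + k)) with hS
    have hold : ∀ p, bipY G c (A + 1) M (T + k) p < M p r →
        Old (A + 1) (bD G c A M (T + k)) p := by
      intro p hp
      by_contra hno
      have h3 := not_old_lt_card (by omega) hno
      have h4 : bH G c A M (T + k) p < r := hd_lt_of_lt (hM.zero p) (hM.mono p) hp
      unfold bD at h3
      omega
    refine ⟨fun s => if s = S then n s + 1 else n s, ?_, ?_, ?_⟩
    · have : S = 0 ∨ S = 1 := by
        rcases S with ⟨_ | _ | i, hi⟩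
        · left; rfl
        · right; rfl
        · omega
      rcases this with h | h <;> simp [h] <;> omega
    · intro p
      have hmono := bipY_le_succ (G := G) (c := c) (A := A) (M := M) (T + k) p
      rw [← add_assoc]
      by_cases hp : M p r ≤ bipY G c (A + 1) M (T + k) p
      · left; omega
      · right
        have h3 := (h1 p).resolve_left hp
        by_cases hs : c p = S
        · have hrun : Runs G c (A + 1) (bD G c A M (T + k)) p :=
            ⟨hold p (not_le.mp hp), Or.inl hs⟩
          have := bipY_run hrun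
          simp only [hs, if_true] at h3 ⊢
          omega
        · simp only [hs, if_false]
          omega
    · rw [← add_assoc]
      by_cases hall : ∀ p, M p r ≤ bipY G c (A + 1) M (T + k) p
      · left
        intro p
        exact (hall p).trans (bipY_le_succ _ _)
      · right
        have h3 := h2.resolve_left hall
        push Not at hall
        obtain ⟨q, hq⟩ := hall
        obtain ⟨o, ho1, ho2⟩ := Classical.choose_spec (exists_side c (bD G c A M (T + k))) q
        have ho1' : c o = S := ho1
        have hq4 : bH G c A M (T + k) q < r := hd_lt_of_lt (hM.zero q) (hM.mono q) hq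
        have ho3 : bH G c A M (T + k) o ≤ T + k + 1 := bH_le _ o
        have ho4 : bH G c A M (T + k) o < r := by
          unfold bD at ho2
          omega
        have ho5 : bipY G c (A + 1) M (T + k) o < M o r :=
          lt_of_hd_lt (C := T + k + 1) ho4 (by omega)
        have ho6 := (h1 o).resolve_left (not_le.mpr ho5)
        have ho7 := backlog hc hM hZ T o
        have ho8 := hM.mono o (show r ≤ T + 1 by omega)
        intro s
        by_cases hs : s = S
        · simp only [hs, if_true]
          rw [ho1'] at ho6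
          omega
        · simp only [hs, if_false]
          exact h3 s

end Analysis

theorem bip_countAlg {G : SimpleGraph V} (hG : G.IsBipartite) :
    ∃ alg, CountAlg G (6 * Fintype.card V + 5) alg := by
  obtain ⟨col⟩ := hG
  have hc : ∀ p q, G.Adj p q → col p ≠ col q := fun p q h => col.valid h
  refine ⟨fun A M u t => bipY G col (A + 1) M t u, ?_, ?_⟩
  · intro A M M' t h u s hs
    show bipY G col (A + 1) M s u = bipY G col (A + 1) M' s u
    rw [bipY_congr G col (A + 1) h s hs]
  · rintro A M hA hM ⟨Z, hZ⟩
    refine ⟨fun u => rfl, fun u t => bipY_le_succ t u, fun u t => bipY_succ_le t u, ?_,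
      fun u t => bipY_upper hM t u, ?_⟩
    · intro u t
      show M u (t - (6 * Fintype.card V + 5) * A) ≤ bipY G col (A + 1) M t u
      by_cases ht : t ≤ (6 * Fintype.card V + 5) * A
      · rw [Nat.sub_eq_zero_of_le ht, hM.zero]
        exact Nat.zero_le _
      · set r := t - (6 * Fintype.card V + 5) * A with hr
        have hk : r + Fintype.card V * (A + 1) + (2 * ((Fintype.card V + 1) * (A + 1)) + 1) ≤ t := by
          have : Fintype.card V * (A + 1) + (2 * ((Fintype.card V + 1) * (A + 1)) + 1) ≤
              (6 * Fintype.card V + 5) * A := by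
            obtain ⟨B, rfl⟩ : ∃ B, A = B + 1 := ⟨A - 1, by omega⟩
            nlinarith [Nat.zero_le (Fintype.card V * B), Nat.zero_le B]
          omega
        obtain ⟨n, hn, -, h2⟩ := drain hc hM hZ r (2 * ((Fintype.card V + 1) * (A + 1)) + 1)
        rcases h2 with h2 | h2
        · exact (h2 u).trans (monotone_nat_of_le_succ (f := fun t => bipY G col (A + 1) M t u)
            (fun t => bipY_le_succ t u) hk)
        · have h3 := h2 0
          have h4 := h2 1
          omega
    · intro u w t huw hu
      show bipY G col (A + 1) M (t + 1) w = bipY G col (A + 1) M t w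
      have hu' : Runs G col (A + 1) (bD G col A M t) u := by
        by_contra h
        have := bipY_idle h
        have hu2 : bipY G col (A + 1) M t u < bipY G col (A + 1) M (t + 1) u := hu
        omega
      apply bipY_idle
      intro hw
      obtain ⟨hu1, hu2⟩ := hu'
      obtain ⟨hw1, hw2⟩ := hw
      rcases hu2 with hu2 | hu2
      · rcases hw2 with hw2 | hw2
        · exact hc u w huw (hu2.trans hw2.symm)
        · exact hw2 u huw.symm ⟨hu1, hu2⟩
      · rcases hw2 with hw2 | hw2
        · exact hu2 w huw ⟨hw1, hw2⟩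
        · by_cases hs : col u = side col (bD G col A M t)
          · exact hw2 u huw.symm ⟨hu1, hs⟩
          · exact hu2 w huw ⟨hw1, fin2_eq (hc u w huw) hs⟩

end Pool.Agent.Lib.MP_806e08_lc
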