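import Mathlib

/-!
The counting form of the problem. `M u t` is the number of jobs on `u` released before time `t`,
`Y u t` the number of jobs on `u` run before time `t`.
-/

namespace Pool.Agent.Lib.MP_806e08_lc

/-- Cumulative arrival counts. -/
structure Arr {V : Type} (M : V → ℕ → ℕ) : Prop where
  zero : ∀ u, M u 0 = 0
  mono : ∀ u, Monotone (M u)

/-- Cumulative service counts with delay at most `D`. -/
structure Feasible {V : Type} (G : SimpleGraph V) (M : V → ℕ → ℕ) (D : ℕ) (Y : V → ℕ → ℕ) :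
    Prop where
  zero : ∀ u, Y u 0 = 0
  le_succ : ∀ u t, Y u t ≤ Y u (t + 1)
  succ_le : ∀ u t, Y u (t + 1) ≤ Y u t + 1
  lower : ∀ u t, M u (t - D) ≤ Y u t
  upper : ∀ u t, Y u t ≤ M u t
  indep : ∀ u w t, G.Adj u w → Y u t < Y u (t + 1) → Y w (t + 1) = Y w t

lemma Feasible.mono {V : Type} {G : SimpleGraph V} {M : V → ℕ → ℕ} {D : ℕ} {Y : V → ℕ → ℕ}
    (h : Feasible G M D Y) (u : V) : Monotone (Y u) :=
  monotone_nat_of_le_succ (h.le_succ u)

lemma Feasible.weaken {V : Type} {G : SimpleGraph V} {M : V → ℕ → ℕ} {D D' : ℕ}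
    {Y : V → ℕ → ℕ} (hM : Arr M) (h : Feasible G M D Y) (hD : D ≤ D') : Feasible G M D' Y :=
  { h with lower := fun u t => (hM.mono u (by omega)).trans (h.lower u t) }

/-- A count-level on-line algorithm that knows the optimum `A` and is `c`-competitive. -/
def CountAlg {V : Type} (G : SimpleGraph V) (c : ℕ)
    (alg : ℕ → (V → ℕ → ℕ) → V → ℕ → ℕ) : Prop :=
  (∀ A M M' t, (∀ u s, s ≤ t → M u s = M' u s) → ∀ u s, s ≤ t → alg A M u s = alg A M' u s) ∧
  ∀ A M, 1 ≤ A → Arr M → (∃ Y, Feasible G M A Y) → Feasible G M (c * A) (alg A M)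

/-- The capped head: the largest `s ≤ C` with `N s ≤ k`. -/
def hd (N : ℕ → ℕ) (k C : ℕ) : ℕ := Nat.findGreatest (fun s => N s ≤ k) C

lemma hd_le (N : ℕ → ℕ) (k C : ℕ) : hd N k C ≤ C := Nat.findGreatest_le C

lemma hd_spec {N : ℕ → ℕ} (h0 : N 0 = 0) (k C : ℕ) : N (hd N k C) ≤ k :=
  Nat.findGreatest_spec (P := fun s => N s ≤ k) (Nat.zero_le C) (by simp [h0])

lemma le_hd {N : ℕ → ℕ} {k C s : ℕ} (hs : s ≤ C) (h : N s ≤ k) : s ≤ hd N k C :=
  Nat.le_findGreatest hs h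

lemma lt_of_hd_lt {N : ℕ → ℕ} {k C s : ℕ} (h1 : hd N k C < s) (h2 : s ≤ C) : k < N s := by
  have := Nat.findGreatest_is_greatest (P := fun s => N s ≤ k) h1 h2
  simpa using this

lemma hd_lt_of_lt {N : ℕ → ℕ} (h0 : N 0 = 0) (hN : Monotone N) {k C s : ℕ} (h : k < N s) :
    hd N k C < s := by
  by_contra hc
  have h1 := hN (not_lt.mp hc)
  have h2 := hd_spec h0 k C
  omega

lemma hd_mono {N : ℕ → ℕ} (h0 : N 0 = 0) {k k' C C' : ℕ} (hk : k ≤ k') (hC : C ≤ C') :
    hd N k C ≤ hd N k' C' :=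
  le_hd ((hd_le N k C).trans hC) ((hd_spec h0 k C).trans hk)

lemma hd_congr {N N' : ℕ → ℕ} {k C : ℕ} (h : ∀ s, s ≤ C → N s = N' s) :
    hd N k C = hd N' k C := by
  unfold hd
  induction C with
  | zero => simp
  | succ n ih =>
    rw [Nat.findGreatest_succ, Nat.findGreatest_succ, ih (fun s hs => h s (by omega)),
      h (n + 1) le_rfl]

end Pool.Agent.Lib.MP_806e08_lc
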