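import Mathlib

/-!
Definitions for on-line scheduling of unit jobs with a conflict graph.
-/

namespace Pool.Agent.Lib.MP_806e08_lc

/-- A unit job: an integral release time, the vertex of the conflict graph on which it sits,
and a label that tells apart jobs with the same release time and vertex. -/
structure Job (V : Type) where
  release : ℤ
  vertex : V
  label : ℕ

/-- `s` is a schedule of the finite job set `J` for the conflict graph `G`: every job starts at an
integer time not before its release time, and two different jobs that run at the same time sit on
different, non-adjacent vertices. -/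
def IsSchedule {V : Type} (G : SimpleGraph V) (J : Finset (Job V)) (s : Job V → ℤ) : Prop :=
  (∀ j ∈ J, j.release ≤ s j) ∧
    ∀ j ∈ J, ∀ k ∈ J, j ≠ k → s j = s k → j.vertex ≠ k.vertex ∧ ¬ G.Adj j.vertex k.vertex

/-- The maximal flow time `max (s j + 1 - release j)` of the schedule `s` on the job set `J`. -/
def maxFlow {V : Type} (J : Finset (Job V)) (s : Job V → ℤ) : ℕ :=
  J.sup fun j => (s j + 1 - j.release).toNat

/-- A deterministic on-line algorithm: given the current time `t` and the set of jobs released up to
time `t`, it returns the set of jobs to run at time `t`. -/
def OnlineRule (V : Type) : Type := ℤ → Finset (Job V) → Finset (Job V)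

/-- The schedule `s` of `J` is the one the on-line rule produces: at every time `t` the jobs that
start at `t` are exactly those the rule returns when shown the jobs released up to time `t`. -/
def Follows {V : Type} (rule : OnlineRule V) (J : Finset (Job V)) (s : Job V → ℤ) : Prop :=
  ∀ t : ℤ, rule t (J.filter fun j => j.release ≤ t) = J.filter fun j => s j = t

/-- `G` is an interval graph: the intersection graph of a family of closed real intervals. -/
def IsIntervalGraph {V : Type} (G : SimpleGraph V) : Prop :=
  ∃ l r : V → ℝ, (∀ u, l u ≤ r u) ∧
    ∀ u w, G.Adj u w ↔ u ≠ w ∧ (Set.Icc (l u) (r u) ∩ Set.Icc (l w) (r w)).Nonempty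

end Pool.Agent.Lib.MP_806e08_lc
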