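import Pool.Agent.Lib.MP_806e08_lc.Walk
import Pool.Agent.Lib.MP_806e08_lc.Defs

/-!
The count-level algorithm for interval conflict graphs.
-/

namespace Pool.Agent.Lib.MP_806e08_lc

open Classical

/-- The least solution of the forward difference constraints: `slack a In Out t j`. -/
def slack (a : ℕ) (In Out : ℕ → ℕ → ℕ) : ℕ → ℕ → ℕ
  | 0, _ => 0
  | t + 1, 0 => t + 1
  | t + 1, j + 1 => max (slack a In Out t (j + 1))
      (max (slack a In Out (t - a) j + Out j (t - a) - In j (t + 1))
        (slack a In Out (t - a) (j + 2) + In (j + 1) (t - a) - Out (j + 1) (t + 1)))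
termination_by t => t
decreasing_by all_goals omega

section Slack

variable {a : ℕ} {In Out : ℕ → ℕ → ℕ}

lemma slack_zero (j : ℕ) : slack a In Out 0 j = 0 := by rw [slack]

lemma slack_tok (t : ℕ) : slack a In Out t 0 = t := by
  cases t with
  | zero => rw [slack]
  | succ t => rw [slack]

lemma slack_succ (t j : ℕ) : slack a In Out (t + 1) (j + 1) = max (slack a In Out t (j + 1))
      (max (slack a In Out (t - a) j + Out j (t - a) - In j (t + 1))
        (slack a In Out (t - a) (j + 2) + In (j + 1) (t - a) - Out (j + 1) (t + 1))) := by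
  rw [slack]

lemma slack_mono (j : ℕ) : Monotone fun t => slack a In Out t j := by
  apply monotone_nat_of_le_succ
  intro t
  cases j with
  | zero => simp [slack_tok]
  | succ j => rw [slack_succ]; exact le_max_left _ _

lemma slack_two (hO : ∀ j, Out j 0 = 0) (p t : ℕ) :
    slack a In Out (t - (a + 1)) p + Out p (t - (a + 1)) ≤ slack a In Out t (p + 1) + In p t := by
  cases t with
  | zero => simp [slack_zero, hO]
  | succ t =>
    rw [slack_succ, show t + 1 - (a + 1) = t - a by omega]
    omega

lemma slack_three (hI : ∀ j, In j 0 = 0) (j t : ℕ) :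
    slack a In Out (t - (a + 1)) (j + 2) + In (j + 1) (t - (a + 1)) ≤
      slack a In Out t (j + 1) + Out (j + 1) t := by
  cases t with
  | zero => simp [slack_zero, hI]
  | succ t =>
    rw [slack_succ, show t + 1 - (a + 1) = t - a by omega]
    omega

lemma slack_le {T : ℕ → ℕ → ℕ} (hT0 : ∀ t, T t 0 = t) (hTm : ∀ t j, T t j ≤ T (t + 1) j)
    (h2 : ∀ p t, T (t - (a + 1)) p + Out p (t - (a + 1)) ≤ T t (p + 1) + In p t)
    (h3 : ∀ p t, T (t - (a + 1)) (p + 1) + In p (t - (a + 1)) ≤ T t p + Out p t) :
    ∀ t j, slack a In Out t j ≤ T t j := by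
  intro t
  induction t using Nat.strong_induction_on with
  | _ t ih =>
    intro j
    cases t with
    | zero => simp [slack_zero]
    | succ t =>
      cases j with
      | zero => rw [slack_tok, hT0]
      | succ j =>
        rw [slack_succ]
        have h4 := ih t (by omega) (j + 1)
        have h5 := ih (t - a) (by omega) j
        have h6 := ih (t - a) (by omega) (j + 2)
        have h7 := h2 j (t + 1)
        have h8 := h3 (j + 1) (t + 1)
        have h9 := hTm t (j + 1)
        rw [show t + 1 - (a + 1) = t - a by omega] at h7 h8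
        rw [show j + 1 + 1 = j + 2 by omega] at h8
        omega

lemma slack_congr {In' Out' : ℕ → ℕ → ℕ} {x : ℕ} (hI : ∀ j s, s ≤ x → In j s = In' j s)
    (hO : ∀ j s, s ≤ x → Out j s = Out' j s) :
    ∀ t, t ≤ x → ∀ j, slack a In Out t j = slack a In' Out' t j := by
  intro t
  induction t using Nat.strong_induction_on with
  | _ t ih =>
    intro ht j
    cases t with
    | zero => simp [slack_zero]
    | succ t =>
      cases j with
      | zero => rw [slack_tok, slack_tok]
      | succ j =>
        rw [slack_succ, slack_succ, ih t (by omega) (by omega), ih (t - a) (by omega) (by omega),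
          ih (t - a) (by omega) (by omega), hI j (t + 1) ht, hO j (t - a) (by omega),
          hI (j + 1) (t - a) (by omega), hO (j + 1) (t + 1) ht]

end Slack

variable {V : Type} [Fintype V]

/-- The arcs: one for every vertex, one slack arc `j → j + 1` for every `j`. -/
noncomputable def arcSys (L R : V → ℕ) (hLR : ∀ u, L u < R u) : ArcSys (V ⊕ ℕ) where
  src := Sum.elim L id
  dst := Sum.elim R (· + 1)
  lt := by
    rintro (u | j)
    · exact hLR u
    · simp
  outA p := (Finset.univ.filter fun u => L u = p).disjSum {p}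
  inA p := (Finset.univ.filter fun u => R u = p).disjSum
    ((Finset.range p).filter fun j => j + 1 = p)
  mem_out := by
    rintro p (u | j) <;> simp
  mem_in := by
    rintro p (u | j)
    · simp
    · simp only [Finset.inr_mem_disjSum, Finset.mem_filter, Finset.mem_range, Sum.elim_inr]
      omega
  ne p := ⟨Sum.inr p, by simp⟩

noncomputable def cIn (L : V → ℕ) (M : V → ℕ → ℕ) (p t : ℕ) : ℕ :=
  ∑ u ∈ Finset.univ.filter (fun u => L u = p), M u t

noncomputable def arcN (L R : V → ℕ) (A : ℕ) (M : V → ℕ → ℕ) : V ⊕ ℕ → ℕ → ℕ :=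
  Sum.elim M fun j t => slack (A - 1) (cIn L M) (cIn R M) t (j + 1)

lemma sum_outA (L R : V → ℕ) (hLR : ∀ u, L u < R u) (A : ℕ) (M : V → ℕ → ℕ) (p t : ℕ) :
    ∑ e ∈ (arcSys L R hLR).outA p, arcN L R A M e t =
      cIn L M p t + slack (A - 1) (cIn L M) (cIn R M) t (p + 1) := by
  simp [arcSys, Finset.sum_disjSum, arcN, cIn]

lemma sum_inA (L R : V → ℕ) (hLR : ∀ u, L u < R u) (A : ℕ) (M : V → ℕ → ℕ) (q t : ℕ) :
    ∑ e ∈ (arcSys L R hLR).inA (q + 1), arcN L R A M e t =
      cIn R M (q + 1) t + slack (A - 1) (cIn L M) (cIn R M) t (q + 1) := by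
  have : (Finset.range (q + 1)).filter (fun j => j + 1 = q + 1) = {q} := by
    ext j
    simp only [Finset.mem_filter, Finset.mem_range, Finset.mem_singleton]
    omega
  simp only [arcSys, Finset.sum_disjSum, arcN, cIn, this, Finset.sum_singleton, Sum.elim_inl,
    Sum.elim_inr]

/-- total service on the arcs over the point between nodes `p - 1` and `p` -/
noncomputable def cov (L R : V → ℕ) (Z : V → ℕ → ℕ) (p t : ℕ) : ℕ :=
  ∑ u ∈ Finset.univ.filter (fun u => L u < p ∧ p ≤ R u), Z u t

lemma cov_conserve {L R : V → ℕ} (hLR : ∀ u, L u < R u) (Z : V → ℕ → ℕ) (p t : ℕ) :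
    cov L R Z (p + 1) t + cIn R Z p t = cov L R Z p t + cIn L Z p t := by
  simp only [cov, cIn, Finset.sum_filter, ← Finset.sum_add_distrib]
  apply Finset.sum_congr rfl
  intro u _
  have := hLR u
  split_ifs <;> omega

lemma cov_succ_le {G : SimpleGraph V} {L R : V → ℕ}
    (hadj : ∀ u w, u ≠ w → L u < R w → L w < R u → G.Adj u w) {M : V → ℕ → ℕ} {A : ℕ}
    {Z : V → ℕ → ℕ} (hZ : Feasible G M A Z) (p t : ℕ) :
    cov L R Z p (t + 1) ≤ cov L R Z p t + 1 := by
  unfold cov
  by_cases h : ∃ u, (L u < p ∧ p ≤ R u) ∧ Z u t < Z u (t + 1)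
  · obtain ⟨u, hu, hz⟩ := h
    have hmem : u ∈ Finset.univ.filter (fun u => L u < p ∧ p ≤ R u) := by simpa using hu
    rw [← Finset.add_sum_erase _ _ hmem, ← Finset.add_sum_erase _ _ hmem]
    have h1 := hZ.succ_le u t
    have h2 : ∑ w ∈ (Finset.univ.filter (fun u => L u < p ∧ p ≤ R u)).erase u, Z w (t + 1) =
        ∑ w ∈ (Finset.univ.filter (fun u => L u < p ∧ p ≤ R u)).erase u, Z w t := by
      apply Finset.sum_congr rfl
      intro w hw
      obtain ⟨hw1, hw2⟩ := Finset.mem_erase.mp hw
      have hw3 : L w < p ∧ p ≤ R w := by simpa using hw2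
      exact hZ.indep u w t (hadj u w hw1.symm (by omega) (by omega)) hz
    omega
  · push Not at h
    have : ∑ w ∈ Finset.univ.filter (fun u => L u < p ∧ p ≤ R u), Z w (t + 1) ≤
        ∑ w ∈ Finset.univ.filter (fun u => L u < p ∧ p ≤ R u), Z w t :=
      Finset.sum_le_sum fun w hw => h w (by simpa using hw)
    omega

lemma cov_le {G : SimpleGraph V} {L R : V → ℕ}
    (hadj : ∀ u w, u ≠ w → L u < R w → L w < R u → G.Adj u w) {M : V → ℕ → ℕ} {A : ℕ}
    {Z : V → ℕ → ℕ} (hZ : Feasible G M A Z) (p t : ℕ) : cov L R Z p t ≤ t := by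
  induction t with
  | zero => simp [cov, hZ.zero]
  | succ t ih =>
    have := cov_succ_le hadj hZ p t
    omega

lemma slack_first {G : SimpleGraph V} {L R : V → ℕ} (hLR : ∀ u, L u < R u)
    (hadj : ∀ u w, u ≠ w → L u < R w → L w < R u → G.Adj u w) {M : V → ℕ → ℕ} {A : ℕ}
    (hA : 1 ≤ A) {Z : V → ℕ → ℕ} (hZ : Feasible G M A Z) (t : ℕ) :
    cIn L M 0 (t - A) + slack (A - 1) (cIn L M) (cIn R M) (t - A) 1 ≤ t := by
  have hlo : ∀ (K : V → ℕ) p t, cIn K M p (t - A) ≤ cIn K Z p t := fun K p t =>
    Finset.sum_le_sum fun u _ => hZ.lower u t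
  have hhi : ∀ (K : V → ℕ) p t, cIn K Z p t ≤ cIn K M p t := fun K p t =>
    Finset.sum_le_sum fun u _ => hZ.upper u t
  have hm : ∀ t j, t - cov L R Z j t ≤ t + 1 - cov L R Z j (t + 1) := by
    intro t j
    have := cov_succ_le hadj hZ j t
    omega
  have hmono : ∀ j, Monotone fun t => t - cov L R Z j t := fun j =>
    monotone_nat_of_le_succ fun t => hm t j
  have h3 : ∀ p t, t - A - cov L R Z (p + 1) (t - A) + cIn L M p (t - A) ≤
      t - cov L R Z p t + cIn R M p t := by
    intro p t
    have h1 : t - A - cov L R Z (p + 1) (t - A) ≤ t - cov L R Z (p + 1) t :=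
      hmono (p + 1) (Nat.sub_le t A)
    have h2 := cov_conserve hLR Z p t
    have h4 := cov_le hadj hZ p t
    have h5 := cov_le hadj hZ (p + 1) t
    have h6 := hlo L p t
    have h7 := hhi R p t
    omega
  have hle := slack_le (a := A - 1) (In := cIn L M) (Out := cIn R M)
    (T := fun t j => t - cov L R Z j t) (fun t => by simp [cov]) hm ?_ ?_ (t - A) 1
  · have h4 := h3 0 t
    have h5 : cIn R M 0 t = 0 := by
      apply Finset.sum_eq_zero
      intro u hu
      have h6 := hLR u
      have h7 : R u = 0 := by simpa using hu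
      omega
    simp only [zero_add] at h4
    omega
  · intro p t
    rw [show A - 1 + 1 = A by omega]
    have h1 : t - A - cov L R Z p (t - A) ≤ t - cov L R Z p t := hmono p (Nat.sub_le t A)
    have h2 := cov_conserve hLR Z p t
    have h4 := cov_le hadj hZ p t
    have h5 := cov_le hadj hZ (p + 1) t
    have h6 := hlo R p t
    have h7 := hhi L p t
    omega
  · intro p t
    rw [show A - 1 + 1 = A by omega]
    exact h3 p t

theorem arcs_countAlg {G : SimpleGraph V} {L R : V → ℕ} {m : ℕ} (hLR : ∀ u, L u < R u)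
    (hm : ∀ u, R u ≤ m) (hadj : ∀ u w, u ≠ w → (G.Adj u w ↔ L u < R w ∧ L w < R u)) :
    ∃ alg, CountAlg G (2 * m) alg := by
  refine ⟨fun A M u t => (arcSys L R hLR).cons (arcN L R A M) (m * A) (t - m * A) (Sum.inl u),
    ?_, ?_⟩
  · intro A M M' t h u s hs
    have hc : ∀ (K : V → ℕ) j s, s ≤ t → cIn K M j s = cIn K M' j s := fun K j s hs =>
      Finset.sum_congr rfl fun u _ => h u s hs
    have hN : ∀ e s, s ≤ t → arcN L R A M e s = arcN L R A M' e s := by
      rintro (u | j) s hs
      · exact h u s hs
      · exact slack_congr (hc L) (hc R) s hs (j + 1)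
    show (arcSys L R hLR).cons (arcN L R A M) (m * A) (s - m * A) (Sum.inl u) =
      (arcSys L R hLR).cons (arcN L R A M') (m * A) (s - m * A) (Sum.inl u)
    rw [(arcSys L R hLR).cons_congr (m * A) hN (s - m * A) (by omega)]
  · rintro A M hA hM ⟨Z, hZ⟩
    have hadj' : ∀ u w, u ≠ w → L u < R w → L w < R u → G.Adj u w :=
      fun u w h h1 h2 => (hadj u w h).mpr ⟨h1, h2⟩
    have h0 : ∀ e, arcN L R A M e 0 = 0 := by
      rintro (u | j)
      · exact hM.zero u
      · exact slack_zero _
    have hN : ∀ e, Monotone (arcN L R A M e) := by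
      rintro (u | j)
      · exact hM.mono u
      · exact slack_mono (j + 1)
    have hc0 : ∀ (K : V → ℕ) j, cIn K M j 0 = 0 := fun K j => by simp [cIn, hM.zero]
    have hA1 : A - 1 + 1 = A := by omega
    have hb := (arcSys L R hLR).walk_bound (A := A) (C := m * A) h0 hN ?_ ?_ ?_ ?_
    rotate_left
    · intro t
      rw [sum_outA]
      have := slack_two (a := A - 1) (In := cIn L M) (hc0 R) 0 t
      rw [hA1, slack_tok] at this
      omega
    · intro t
      rw [sum_outA]
      exact slack_first hLR hadj' hA hZ t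
    · intro q t
      rw [sum_outA, sum_inA]
      have := slack_two (a := A - 1) (In := cIn L M) (hc0 R) (q + 1) t
      rw [hA1] at this
      omega
    · intro q t
      rw [sum_outA, sum_inA]
      have := slack_three (a := A - 1) (Out := cIn R M) (hc0 L) q t
      rw [hA1] at this
      rw [show q + 1 + 1 = q + 2 by omega]
      omega
    have hb' : ∀ t u, M u (t - m * A) ≤
        (arcSys L R hLR).cons (arcN L R A M) (m * A) t (Sum.inl u) ∧
        (arcSys L R hLR).cons (arcN L R A M) (m * A) t (Sum.inl u) ≤ M u (t + m * A) := by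
      intro t u
      have h1 : (L u + 1) * A ≤ m * A :=
        Nat.mul_le_mul_right A ((Nat.succ_le_of_lt (hLR u)).trans (hm u))
      obtain ⟨h2, h3⟩ := hb (L u) h1 t (Sum.inl u) rfl
      exact ⟨(hM.mono u (by omega)).trans h2, h3.trans (hM.mono u (by omega))⟩
    have hstep : ∀ t, t + 1 - m * A = t - m * A ∨ t + 1 - m * A = t - m * A + 1 := by
      intro t
      omega
    refine ⟨fun u => ?_, fun u t => ?_, fun u t => ?_, fun u t => ?_, fun u t => ?_, ?_⟩
    · simp [ArcSys.cons]
    · rcases hstep t with h | h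
      · simp only [h, le_refl]
      · simp only [h, ArcSys.cons_succ]
        omega
    · rcases hstep t with h | h
      · simp only [h]
        omega
      · simp only [h, ArcSys.cons_succ]
        split_ifs <;> omega
    · have := (hb' (t - m * A) u).1
      rw [show t - m * A - m * A = t - 2 * m * A by
        rw [Nat.sub_sub]; congr 1; ring] at this
      exact this
    · by_cases ht : m * A ≤ t
      · have := (hb' (t - m * A) u).2
        rw [Nat.sub_add_cancel ht] at this
        exact this
      · simp [show t - m * A = 0 by omega, ArcSys.cons]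
    · intro u w t huw hu
      rcases hstep t with h | h
      · simp only [h]
      · simp only [h, ArcSys.cons_succ] at hu ⊢
        have hu' : (arcSys L R hLR).Used
            ((arcSys L R hLR).wH (arcN L R A M) (m * A) (t - m * A)) (Sum.inl u) := by
          by_contra hc
          rw [if_neg hc] at hu
          omega
        rw [if_neg, add_zero]
        intro hw'
        have h1 := (arcSys L R hLR).used_disj _ hu' hw' (by simpa using huw.ne)
        have h2 := (hadj u w huw.ne).mp huw
        simp only [arcSys, Sum.elim_inl] at h1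
        omega

theorem interval_countAlg {G : SimpleGraph V} (hG : IsIntervalGraph G) :
    ∃ alg, CountAlg G (2 * Fintype.card V) alg := by
  obtain ⟨l, r, hlr, hG⟩ := hG
  let ρ : ℝ → ℕ := fun x => (Finset.univ.filter fun w => r w < x).card
  have hρ : Monotone ρ := by
    intro x y hxy
    apply Finset.card_le_card
    intro w hw
    simp only [Finset.mem_filter, Finset.mem_univ, true_and] at hw ⊢
    linarith
  have hρ2 : ∀ u x, r u < x → ρ (r u) < ρ x := by
    intro u x hx
    apply Finset.card_lt_card
    constructor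
    · intro w hw
      simp only [Finset.mem_filter, Finset.mem_univ, true_and] at hw ⊢
      linarith
    · intro hsub
      have : u ∈ Finset.univ.filter fun w => r w < r u := hsub (by simpa using hx)
      simp at this
  apply arcs_countAlg (L := fun u => ρ (l u)) (R := fun u => ρ (r u) + 1)
  · intro u
    exact Nat.lt_succ_of_le (hρ (hlr u))
  · intro u
    apply Nat.succ_le_of_lt
    apply Finset.card_lt_card
    constructor
    · exact Finset.subset_univ _
    · intro hsub
      have : u ∈ Finset.univ.filter fun w => r w < r u := hsub (Finset.mem_univ u)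
      simp at this
  · intro u w huw
    rw [hG]
    constructor
    · rintro ⟨-, x, ⟨h1, h2⟩, ⟨h3, h4⟩⟩
      exact ⟨Nat.lt_succ_of_le (hρ (h1.trans h4)), Nat.lt_succ_of_le (hρ (h3.trans h2))⟩
    · rintro ⟨h1, h2⟩
      have h3 : l u ≤ r w := by
        by_contra hc
        have := hρ2 w (l u) (not_le.mp hc)
        omega
      have h4 : l w ≤ r u := by
        by_contra hc
        have := hρ2 u (l w) (not_le.mp hc)
        omega
      exact ⟨huw, max (l u) (l w), ⟨le_max_left _ _, max_le (hlr u) h4⟩,
        ⟨le_max_right _ _, max_le h3 (hlr w)⟩⟩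

end Pool.Agent.Lib.MP_806e08_lc
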