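import Pool.Agent.Lib.MP_806e08_lc.Count
import Pool.Agent.Lib.MP_806e08_lc.Defs

/-!
From a count-level algorithm that knows the optimum to a job-level on-line rule that does not.
-/

namespace Pool.Agent.Lib.MP_806e08_lc

open Classical

variable {V : Type}

def Feas (G : SimpleGraph V) (J : Finset (Job V)) (A : ℕ) : Prop :=
  ∃ s, IsSchedule G J s ∧ ∀ j ∈ J, s j + 1 - j.release ≤ (A : ℤ)

lemma Feas.subset {G : SimpleGraph V} {J K : Finset (Job V)} {A B : ℕ} (h : Feas G J A)
    (hK : K ⊆ J) (hAB : A ≤ B) : Feas G K B := by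
  obtain ⟨s, ⟨h1, h2⟩, h3⟩ := h
  refine ⟨s, ⟨fun j hj => h1 j (hK hj), fun j hj k hk => h2 j (hK hj) k (hK hk)⟩, fun j hj => ?_⟩
  have := h3 j (hK hj)
  omega

lemma le_maxFlow {J : Finset (Job V)} (s : Job V → ℤ) {j : Job V} (hj : j ∈ J) :
    s j + 1 - j.release ≤ (maxFlow J s : ℤ) := by
  have : (s j + 1 - j.release).toNat ≤ maxFlow J s :=
    Finset.le_sup (f := fun j => (s j + 1 - j.release).toNat) hj
  omega

lemma feas_maxFlow {G : SimpleGraph V} {J : Finset (Job V)} {s : Job V → ℤ}
    (hs : IsSchedule G J s) : Feas G J (maxFlow J s) :=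
  ⟨s, hs, fun _ hj => le_maxFlow s hj⟩

lemma exists_feas (G : SimpleGraph V) (J : Finset (Job V)) : ∃ i, Feas G J (2 ^ i) := by
  obtain ⟨f, hf⟩ := Set.countable_iff_exists_injOn.mp J.countable_toSet
  obtain ⟨B, hB⟩ := (J.image fun j => j.release).bddAbove
  have hs : IsSchedule G J fun j => B + f j := by
    constructor
    · intro j hj
      have : j.release ≤ B := hB (by simpa using ⟨j, hj, rfl⟩)
      show j.release ≤ B + f j
      omega
    · intro j hj k hk hne h
      have h' : B + f j = B + f k := h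
      exact (hne (hf hj hk (by omega))).elim
  exact ⟨_, (feas_maxFlow hs).subset subset_rfl (Nat.lt_two_pow_self).le⟩

def upTo (J : Finset (Job V)) (t : ℤ) : Finset (Job V) := J.filter fun j => j.release ≤ t

lemma mem_upTo {J : Finset (Job V)} {t : ℤ} {j : Job V} :
    j ∈ upTo J t ↔ j ∈ J ∧ j.release ≤ t := Finset.mem_filter

lemma mem_of_upTo {J J' : Finset (Job V)} {t : ℤ} (h : upTo J t = upTo J' t) {j : Job V}
    (hj : j.release ≤ t) : j ∈ J ↔ j ∈ J' := by
  have := Finset.ext_iff.mp h j
  simpa [mem_upTo, hj] using this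

noncomputable def cnt (b : ℤ) (E : Finset (Job V)) (f : Job V → ℤ) (u : V) (x : ℕ) : ℕ :=
  (E.filter fun j => j.vertex = u ∧ f j < b + x).card

noncomputable def rank (E : Finset (Job V)) (j : Job V) : ℕ :=
  (E.filter fun k => k.vertex = j.vertex ∧
    (k.release < j.release ∨ (k.release = j.release ∧ k.label < j.label))).card

noncomputable def slot (alg : ℕ → (V → ℕ → ℕ) → V → ℕ → ℕ) (A : ℕ) (b : ℤ)
    (E : Finset (Job V)) (j : Job V) : ℕ :=
  sInf {t | rank E j < alg A (cnt b E Job.release) j.vertex (t + 1)}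

lemma cnt_arr {b : ℤ} {E : Finset (Job V)} {f : Job V → ℤ} (hb : ∀ j ∈ E, b ≤ f j) :
    Arr (cnt b E f) := by
  constructor
  · intro u
    simp only [cnt, Finset.card_eq_zero, Finset.filter_eq_empty_iff]
    intro j hj h
    have := hb j hj
    omega
  · intro u x y hxy
    apply Finset.card_le_card
    intro j hj
    simp only [Finset.mem_filter] at hj ⊢
    exact ⟨hj.1, hj.2.1, by omega⟩

lemma cnt_succ (b : ℤ) (E : Finset (Job V)) (f : Job V → ℤ) (u : V) (x : ℕ) :
    cnt b E f u (x + 1) =
      cnt b E f u x + (E.filter fun j => j.vertex = u ∧ f j = b + x).card := by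
  unfold cnt
  rw [← Finset.card_union_of_disjoint]
  · congr 1
    ext j
    simp only [Finset.mem_filter, Finset.mem_union]
    constructor
    · rintro ⟨h1, h2, h3⟩
      by_cases h : f j < b + x
      · exact Or.inl ⟨h1, h2, h⟩
      · exact Or.inr ⟨h1, h2, by omega⟩
    · rintro (⟨h1, h2, h3⟩ | ⟨h1, h2, h3⟩)
      · exact ⟨h1, h2, by omega⟩
      · exact ⟨h1, h2, by omega⟩
  · rw [Finset.disjoint_filter]
    intro j _ h1 h2
    omega

lemma feasible_of_feas {G : SimpleGraph V} {b : ℤ} {E : Finset (Job V)} {A : ℕ}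
    (hb : ∀ j ∈ E, b ≤ j.release) (h : Feas G E A) :
    ∃ Y, Feasible G (cnt b E Job.release) A Y := by
  obtain ⟨s, ⟨h1, h2⟩, h3⟩ := h
  have hb' : ∀ j ∈ E, b ≤ s j := fun j hj => (hb j hj).trans (h1 j hj)
  refine ⟨cnt b E s, (cnt_arr hb').zero, fun u t => (cnt_arr hb').mono u (Nat.le_succ t),
    fun u t => ?_, fun u t => ?_, fun u t => ?_, fun u w t huw hu => ?_⟩
  · rw [cnt_succ, Nat.add_le_add_iff_left, Finset.card_le_one]
    intro j hj k hk
    simp only [Finset.mem_filter] at hj hk
    by_contra hne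
    exact (h2 j hj.1 k hk.1 hne (hj.2.2.trans hk.2.2.symm)).1 (hj.2.1.trans hk.2.1.symm)
  · apply Finset.card_le_card
    intro j hj
    simp only [Finset.mem_filter] at hj ⊢
    have h4 := h3 j hj.1
    have h5 := hb j hj.1
    exact ⟨hj.1, hj.2.1, by omega⟩
  · apply Finset.card_le_card
    intro j hj
    simp only [Finset.mem_filter] at hj ⊢
    have h4 := h1 j hj.1
    exact ⟨hj.1, hj.2.1, by omega⟩
  · rw [cnt_succ] at hu ⊢
    obtain ⟨j, hj⟩ := Finset.card_pos.mp (Nat.lt_add_right_iff_pos.mp hu)
    simp only [Finset.mem_filter] at hj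
    simp only [Nat.add_eq_left, Finset.card_eq_zero, Finset.filter_eq_empty_iff]
    rintro k hk ⟨hk1, hk2⟩
    have hne : j ≠ k := by
      rintro rfl
      exact huw.ne (hj.2.1.symm.trans hk1)
    apply (h2 j hj.1 k hk hne (hj.2.2.trans hk2.symm)).2
    rw [hj.2.1, hk1]
    exact huw

lemma rank_bounds {b : ℤ} {E : Finset (Job V)} {j : Job V} (hj : j ∈ E) (hb : b ≤ j.release) :
    cnt b E Job.release j.vertex (j.release - b).toNat ≤ rank E j ∧
      rank E j < cnt b E Job.release j.vertex ((j.release - b).toNat + 1) := by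
  constructor
  · apply Finset.card_le_card
    intro k hk
    simp only [Finset.mem_filter] at hk ⊢
    exact ⟨hk.1, hk.2.1, by omega⟩
  · apply Finset.card_lt_card
    constructor
    · intro k hk
      simp only [Finset.mem_filter] at hk ⊢
      exact ⟨hk.1, hk.2.1, by omega⟩
    · intro hsub
      have : j ∈ E.filter fun k => k.vertex = j.vertex ∧
          (k.release < j.release ∨ (k.release = j.release ∧ k.label < j.label)) := by
        apply hsub
        simp only [Finset.mem_filter]
        exact ⟨hj, trivial, by omega⟩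
      simp at this

lemma rank_lt {E : Finset (Job V)} {j k : Job V} (hj : j ∈ E) (hv : j.vertex = k.vertex)
    (h : j.release < k.release ∨ (j.release = k.release ∧ j.label < k.label)) :
    rank E j < rank E k := by
  apply Finset.card_lt_card
  constructor
  · intro x hx
    simp only [Finset.mem_filter] at hx ⊢
    exact ⟨hx.1, hx.2.1.trans hv, by omega⟩
  · intro hsub
    have : j ∈ E.filter fun k => k.vertex = j.vertex ∧
        (k.release < j.release ∨ (k.release = j.release ∧ k.label < j.label)) := by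
      apply hsub
      simp only [Finset.mem_filter]
      exact ⟨hj, hv, h⟩
    simp at this

lemma rank_ne {E : Finset (Job V)} {j k : Job V} (hj : j ∈ E) (hk : k ∈ E) (hne : j ≠ k)
    (hv : j.vertex = k.vertex) : rank E j ≠ rank E k := by
  by_cases h : j.release < k.release ∨ (j.release = k.release ∧ j.label < k.label)
  · exact (rank_lt hj hv h).ne
  · by_cases h' : k.release < j.release ∨ (k.release = j.release ∧ k.label < j.label)
    · exact (rank_lt hk hv.symm h').ne'
    · exfalso
      apply hne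
      obtain ⟨r, v, l⟩ := j
      obtain ⟨r', v', l'⟩ := k
      simp only at hv h h'
      rw [Job.mk.injEq]
      exact ⟨by omega, hv, by omega⟩

section Known

variable {G : SimpleGraph V} {c : ℕ} {alg : ℕ → (V → ℕ → ℕ) → V → ℕ → ℕ} {A : ℕ} {b : ℤ}
  {E : Finset (Job V)}

lemma slot_spec (halg : CountAlg G c alg) (hA : 1 ≤ A) (hb : ∀ j ∈ E, b ≤ j.release)
    (hE : Feas G E A) {j : Job V} (hj : j ∈ E) :
    alg A (cnt b E Job.release) j.vertex (slot alg A b E j) = rank E j ∧
    alg A (cnt b E Job.release) j.vertex (slot alg A b E j + 1) = rank E j + 1 ∧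
    j.release ≤ b + slot alg A b E j ∧ b + slot alg A b E j ≤ j.release + (c * A : ℕ) := by
  have hM := cnt_arr (f := Job.release) hb
  have hY := halg.2 A _ hA hM (feasible_of_feas hb hE)
  obtain ⟨h1, h2⟩ := rank_bounds hj (hb j hj)
  have hb' := hb j hj
  have h3 : (j.release - b).toNat + c * A ∈
      {t | rank E j < alg A (cnt b E Job.release) j.vertex (t + 1)} := by
    have := hY.lower j.vertex ((j.release - b).toNat + c * A + 1)
    rw [show (j.release - b).toNat + c * A + 1 - c * A = (j.release - b).toNat + 1 by omega] at this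
    exact h2.trans_le this
  have h4 : rank E j < alg A (cnt b E Job.release) j.vertex (slot alg A b E j + 1) :=
    Nat.sInf_mem ⟨_, h3⟩
  have h5 : slot alg A b E j ≤ (j.release - b).toNat + c * A := Nat.sInf_le h3
  have h6 : alg A (cnt b E Job.release) j.vertex (slot alg A b E j) ≤ rank E j := by
    rcases Nat.eq_zero_or_pos (slot alg A b E j) with h | h
    · rw [h, hY.zero]
      exact Nat.zero_le _
    · have h7 : slot alg A b E j - 1 ∉
          {t | rank E j < alg A (cnt b E Job.release) j.vertex (t + 1)} :=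
        Nat.notMem_of_lt_sInf (show slot alg A b E j - 1 < slot alg A b E j by omega)
      simp only [Set.mem_ofPred_eq, not_lt] at h7
      rwa [show slot alg A b E j - 1 + 1 = slot alg A b E j by omega] at h7
  have h7 := hY.succ_le j.vertex (slot alg A b E j)
  have h8 := hY.upper j.vertex (slot alg A b E j + 1)
  have h9 : (j.release - b).toNat < slot alg A b E j + 1 := by
    by_contra hc
    have := hM.mono j.vertex (not_lt.mp hc)
    omega
  refine ⟨by omega, by omega, by omega, by omega⟩

lemma slot_indep (halg : CountAlg G c alg) (hA : 1 ≤ A) (hb : ∀ j ∈ E, b ≤ j.release)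
    (hE : Feas G E A) {j k : Job V} (hj : j ∈ E) (hk : k ∈ E) (hne : j ≠ k)
    (hs : slot alg A b E j = slot alg A b E k) :
    j.vertex ≠ k.vertex ∧ ¬ G.Adj j.vertex k.vertex := by
  have hY := halg.2 A _ hA (cnt_arr (f := Job.release) hb) (feasible_of_feas hb hE)
  obtain ⟨h1, h2, -, -⟩ := slot_spec halg hA hb hE hj
  obtain ⟨h3, h4, -, -⟩ := slot_spec halg hA hb hE hk
  constructor
  · intro hv
    apply rank_ne hj hk hne hv
    rw [← h1, ← h3, hs, hv]
  · intro hadj
    have := hY.indep _ _ (slot alg A b E j) hadj (by omega)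
    rw [hs] at this
    omega

lemma slot_congr (halg : CountAlg G c alg) (hA : 1 ≤ A) (hb : ∀ j ∈ E, b ≤ j.release)
    (hE : Feas G E A) {E' : Finset (Job V)} {t : ℤ} (ht : upTo E t = upTo E' t) {j : Job V}
    (hj : j ∈ E) (hs : b + slot alg A b E j ≤ t) : slot alg A b E' j = slot alg A b E j := by
  obtain ⟨h1, h2, h3, -⟩ := slot_spec halg hA hb hE hj
  have hY := halg.2 A _ hA (cnt_arr (f := Job.release) hb) (feasible_of_feas hb hE)
  have hrank : rank E' j = rank E j := by
    unfold rank
    congr 1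
    ext k
    simp only [Finset.mem_filter]
    constructor
    · rintro ⟨h4, h5, h6⟩
      exact ⟨(mem_of_upTo ht (by omega)).mpr h4, h5, h6⟩
    · rintro ⟨h4, h5, h6⟩
      exact ⟨(mem_of_upTo ht (by omega)).mp h4, h5, h6⟩
  have hcnt : ∀ u x, x ≤ slot alg A b E j + 1 →
      cnt b E Job.release u x = cnt b E' Job.release u x := by
    intro u x hx
    unfold cnt
    congr 1
    ext k
    simp only [Finset.mem_filter]
    constructor
    · rintro ⟨h4, h5, h6⟩
      exact ⟨(mem_of_upTo ht (by omega)).mp h4, h5, h6⟩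
    · rintro ⟨h4, h5, h6⟩
      exact ⟨(mem_of_upTo ht (by omega)).mpr h4, h5, h6⟩
  have halg' := halg.1 A _ _ _ hcnt j.vertex
  apply le_antisymm
  · apply Nat.sInf_le
    simp only [Set.mem_ofPred_eq]
    rw [← halg' _ le_rfl, hrank]
    omega
  · by_contra hc
    have hne : {t | rank E' j < alg A (cnt b E' Job.release) j.vertex (t + 1)}.Nonempty := by
      refine ⟨slot alg A b E j, ?_⟩
      simp only [Set.mem_ofPred_eq]
      rw [← halg' _ le_rfl, hrank]
      omega
    have h4 : rank E' j < alg A (cnt b E' Job.release) j.vertex (slot alg A b E' j + 1) :=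
      Nat.sInf_mem hne
    rw [← halg' _ (by omega), hrank] at h4
    have h5 := hY.mono j.vertex (show slot alg A b E' j + 1 ≤ slot alg A b E j by omega)
    omega

end Known

noncomputable def lev (G : SimpleGraph V) (J : Finset (Job V)) (t : ℤ) : ℕ :=
  sInf {i | Feas G (upTo J t) (2 ^ i)}

lemma lev_spec (G : SimpleGraph V) (J : Finset (Job V)) (t : ℤ) :
    Feas G (upTo J t) (2 ^ lev G J t) :=
  Nat.sInf_mem (s := {i | Feas G (upTo J t) (2 ^ i)}) (exists_feas G _)

lemma lev_mono (G : SimpleGraph V) (J : Finset (Job V)) {t t' : ℤ} (h : t ≤ t') :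
    lev G J t ≤ lev G J t' := by
  apply Nat.sInf_le
  refine (lev_spec G J t').subset ?_ le_rfl
  intro j hj
  rw [mem_upTo] at hj ⊢
  exact ⟨hj.1, hj.2.trans h⟩

lemma lev_le {G : SimpleGraph V} {J : Finset (Job V)} {F : ℕ} (hF : 1 ≤ F) (h : Feas G J F)
    (t : ℤ) : 2 ^ lev G J t ≤ 2 * F := by
  rcases Nat.eq_zero_or_pos (lev G J t) with h0 | h0
  · rw [h0]
    omega
  · have h1 : lev G J t - 1 ∉ {i | Feas G (upTo J t) (2 ^ i)} :=
      Nat.notMem_of_lt_sInf (show lev G J t - 1 < lev G J t by omega)
    have h2 : ¬ F ≤ 2 ^ (lev G J t - 1) := fun hle =>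
      h1 (h.subset (Finset.filter_subset _ _) hle)
    have h3 : 2 ^ lev G J t = 2 * 2 ^ (lev G J t - 1) := by
      rw [← pow_succ']
      congr 1
      omega
    omega

lemma lev_congr (G : SimpleGraph V) {J J' : Finset (Job V)} {t r : ℤ} (h : upTo J t = upTo J' t)
    (hr : r ≤ t) : lev G J r = lev G J' r := by
  have : upTo J r = upTo J' r := by
    ext j
    rw [mem_upTo, mem_upTo]
    constructor
    · exact fun hj => ⟨(mem_of_upTo h (hj.2.trans hr)).mp hj.1, hj.2⟩
    · exact fun hj => ⟨(mem_of_upTo h (hj.2.trans hr)).mpr hj.1, hj.2⟩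
  unfold lev
  rw [this]

noncomputable def ep (G : SimpleGraph V) (J : Finset (Job V)) (i : ℕ) : Finset (Job V) :=
  J.filter fun j => lev G J j.release = i

lemma ep_feas (G : SimpleGraph V) (J : Finset (Job V)) (i : ℕ) : Feas G (ep G J i) (2 ^ i) := by
  rcases (ep G J i).eq_empty_or_nonempty with h | h
  · rw [h]
    exact ⟨fun _ => 0, ⟨by simp, by simp⟩, by simp⟩
  · obtain ⟨j, hj, hmax⟩ := Finset.exists_max_image _ Job.release h
    have h1 := lev_spec G J j.release
    rw [(Finset.mem_filter.mp hj).2] at h1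
    refine h1.subset ?_ le_rfl
    intro k hk
    exact mem_upTo.mpr ⟨(Finset.mem_filter.mp hk).1, hmax k hk⟩

noncomputable def base (J : Finset (Job V)) : ℤ :=
  if h : J.Nonempty then J.inf' h Job.release else 0

lemma base_le {J : Finset (Job V)} {j : Job V} (hj : j ∈ J) : base J ≤ j.release := by
  unfold base
  rw [dif_pos ⟨j, hj⟩]
  exact Finset.inf'_le _ hj

lemma base_mem {J : Finset (Job V)} (h : J.Nonempty) : ∃ j ∈ J, j.release = base J := by
  unfold base
  rw [dif_pos h]
  obtain ⟨j, hj, h2⟩ := Finset.exists_mem_eq_inf' h Job.release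
  exact ⟨j, hj, h2.symm⟩

lemma base_congr {J J' : Finset (Job V)} {t : ℤ} (h : upTo J t = upTo J' t) {j : Job V}
    (hj : j ∈ J) (hjt : j.release ≤ t) : base J = base J' := by
  have hj' := (mem_of_upTo h hjt).mp hj
  obtain ⟨k, hk, h1⟩ := base_mem ⟨j, hj⟩
  obtain ⟨k', hk', h2⟩ := base_mem ⟨j, hj'⟩
  have h3 := base_le hj
  have h4 := base_le hj'
  have h5 := base_le ((mem_of_upTo h (by omega)).mp hk)
  have h6 := base_le ((mem_of_upTo h (by omega)).mpr hk')
  omega

noncomputable def start (G : SimpleGraph V) (c : ℕ) (alg : ℕ → (V → ℕ → ℕ) → V → ℕ → ℕ)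
    (J : Finset (Job V)) (j : Job V) : ℤ :=
  base J + slot alg (2 ^ lev G J j.release) (base J) (ep G J (lev G J j.release)) j +
    (c * 2 ^ lev G J j.release : ℕ)

section Main

variable {G : SimpleGraph V} {c : ℕ} {alg : ℕ → (V → ℕ → ℕ) → V → ℕ → ℕ}

lemma start_bounds (halg : CountAlg G c alg) {J : Finset (Job V)} {j : Job V} (hj : j ∈ J) :
    j.release + (c * 2 ^ lev G J j.release : ℕ) ≤ start G c alg J j ∧
      start G c alg J j ≤ j.release + 2 * (c * 2 ^ lev G J j.release : ℕ) := by
  obtain ⟨-, -, h1, h2⟩ := slot_spec (b := base J) (E := ep G J (lev G J j.release)) halg Nat.one_le_two_pow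
    (fun k hk => base_le (Finset.mem_filter.mp hk).1) (ep_feas G J (lev G J j.release))
    (j := j) (Finset.mem_filter.mpr ⟨hj, rfl⟩)
  unfold start
  constructor <;> omega

lemma start_lt (halg : CountAlg G c alg) {J : Finset (Job V)} {j k : Job V} (hj : j ∈ J)
    (hk : k ∈ J) (h : lev G J j.release < lev G J k.release) :
    start G c alg J j < start G c alg J k := by
  have h1 := (start_bounds halg hj).2
  have h2 := (start_bounds halg hk).1
  have h3 : j.release < k.release := by
    by_contra hc
    have := lev_mono G J (not_lt.mp hc)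
    omega
  have h4 : 2 * (c * 2 ^ lev G J j.release) ≤ c * 2 ^ lev G J k.release := by
    have : 2 ^ (lev G J j.release + 1) ≤ 2 ^ lev G J k.release :=
      Nat.pow_le_pow_right (by omega) h
    rw [pow_succ] at this
    nlinarith
  omega

lemma start_isSchedule (halg : CountAlg G c alg) (J : Finset (Job V)) :
    IsSchedule G J (start G c alg J) := by
  constructor
  · intro j hj
    have := (start_bounds halg hj).1
    omega
  · intro j hj k hk hne hs
    rcases lt_trichotomy (lev G J j.release) (lev G J k.release) with h | h | h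
    · exact absurd hs (start_lt halg hj hk h).ne
    · apply slot_indep (b := base J) (E := ep G J (lev G J j.release)) halg Nat.one_le_two_pow
        (fun k hk => base_le (Finset.mem_filter.mp hk).1) (ep_feas G J (lev G J j.release))
        (Finset.mem_filter.mpr ⟨hj, rfl⟩) (Finset.mem_filter.mpr ⟨hk, h.symm⟩) hne
      unfold start at hs
      rw [← h] at hs
      omega
    · exact absurd hs (start_lt halg hk hj h).ne'

lemma start_congr (halg : CountAlg G c alg) {J J' : Finset (Job V)} {t : ℤ}
    (h : upTo J t = upTo J' t) {j : Job V} (hj : j ∈ J) (hs : start G c alg J j ≤ t) :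
    start G c alg J' j = start G c alg J j := by
  have h1 := (start_bounds halg hj).1
  have hjt : j.release ≤ t := by omega
  have h2 := lev_congr G h hjt
  have h3 := base_congr h hj hjt
  have h4 : upTo (ep G J (lev G J j.release)) t = upTo (ep G J' (lev G J j.release)) t := by
    ext k
    simp only [mem_upTo, ep, Finset.mem_filter]
    constructor
    · rintro ⟨⟨h5, h6⟩, h7⟩
      exact ⟨⟨(mem_of_upTo h h7).mp h5, (lev_congr G h h7).symm.trans h6⟩, h7⟩
    · rintro ⟨⟨h5, h6⟩, h7⟩
      exact ⟨⟨(mem_of_upTo h h7).mpr h5, (lev_congr G h h7).trans h6⟩, h7⟩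
  have h5 := slot_congr (b := base J) (E := ep G J (lev G J j.release)) halg Nat.one_le_two_pow
    (fun k hk => base_le (Finset.mem_filter.mp hk).1) (ep_feas G J (lev G J j.release)) h4
    (j := j) (Finset.mem_filter.mpr ⟨hj, rfl⟩) (by unfold start at hs; omega)
  unfold start
  rw [← h2, ← h3, h5]

theorem exists_rule (halg : CountAlg G c alg) :
    ∃ rule : OnlineRule V, ∀ J : Finset (Job V), ∃ s, Follows rule J s ∧ IsSchedule G J s ∧
      ∀ s', IsSchedule G J s' → maxFlow J s ≤ (4 * c + 1) * maxFlow J s' := by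
  refine ⟨fun t K => K.filter fun j => start G c alg K j = t, fun J =>
    ⟨start G c alg J, fun t => ?_, start_isSchedule halg J, fun s' hs' => ?_⟩⟩
  · have hup : upTo J t = upTo (upTo J t) t := by
      ext j
      simp [mem_upTo]
    show (upTo J t).filter (fun j => start G c alg (upTo J t) j = t) = _
    ext j
    simp only [Finset.mem_filter]
    constructor
    · rintro ⟨h1, h2⟩
      refine ⟨(mem_upTo.mp h1).1, ?_⟩
      rw [start_congr halg hup.symm h1 h2.le, h2]
    · rintro ⟨h1, h2⟩
      have h3 := (start_bounds halg h1).1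
      refine ⟨mem_upTo.mpr ⟨h1, by omega⟩, ?_⟩
      rw [start_congr halg hup h1 h2.le, h2]
  · apply Finset.sup_le
    intro j hj
    have h1 := le_maxFlow s' hj
    have h2 := hs'.1 j hj
    have hF : 1 ≤ maxFlow J s' := by omega
    have h3 := lev_le hF (feas_maxFlow hs') j.release
    have h4 := (start_bounds halg hj).2
    have h5 : 2 * (c * 2 ^ lev G J j.release) + 1 ≤ (4 * c + 1) * maxFlow J s' := by
      nlinarith [Nat.mul_le_mul_left c h3]
    omega

end Main

end Pool.Agent.Lib.MP_806e08_lc
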