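import Pool.Agent.Lib.MP_806e08_lc.Defs

/-! An adversary for conflict graphs that contain a house or a five-cycle with an apex. -/

set_option autoImplicit false

namespace Pool.Agent.Lib.MP_806e08_lc

open Finset
open scoped symmDiff

variable {V : Type} (v : ℕ → V) (T N : ℕ)

/-- Vertex number `k` gets a job at time `τ` of a round with ending `β`. -/
def Rel (β τ k : ℕ) : Prop :=
  (k = 0 ∧ τ = 0) ∨ ((k = 1 ∨ k = 2) ∧ τ < T ∧ τ % 2 = 0) ∨
    ((k = 3 ∨ k = 4) ∧ τ < T ∧ τ % 2 = 1) ∨ (k = 3 + β ∧ τ = T) ∨ (k = 5 ∧ T < τ ∧ τ < 2 * T)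

/-- The ending of round `i`. -/
def fl (B : Finset ℕ) (i : ℕ) : ℕ := if i ∈ B then 1 else 0

theorem fl_spec (B : Finset ℕ) (i : ℕ) : i ∈ B ∧ fl B i = 1 ∨ i ∉ B ∧ fl B i = 0 := by
  by_cases h : i ∈ B <;> simp [fl, h]

theorem fl_le (B : Finset ℕ) (i : ℕ) : fl B i ≤ 1 := by
  rcases fl_spec B i with h | h <;> omega

/-- The job of round `i` released at time `τ` of the round on vertex number `k`. -/
def job (i τ k : ℕ) : Job V := ⟨(2 * T * i + τ : ℕ), v k, 6 * i + k⟩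

open Classical in
/-- The job set with `N` rounds whose endings are given by `B`. -/
noncomputable def jobs (B : Finset ℕ) : Finset (Job V) :=
  ((range N ×ˢ range (2 * T + 1) ×ˢ range 6).filter fun x => Rel T (fl B x.1) x.2.1 x.2.2).image
    fun x => job v T x.1 x.2.1 x.2.2

variable {v T N}

theorem mem_jobs {B : Finset ℕ} {j : Job V} :
    j ∈ jobs v T N B ↔ ∃ i < N, ∃ τ k, Rel T (fl B i) τ k ∧ job v T i τ k = j := by
  simp only [jobs, mem_image, mem_filter, mem_product, mem_range, Prod.exists]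
  constructor
  · rintro ⟨i, τ, k, ⟨⟨h, -⟩, h'⟩, e⟩
    exact ⟨i, h, τ, k, h', e⟩
  · rintro ⟨i, h, τ, k, h', e⟩
    refine ⟨i, τ, k, ⟨⟨h, ?_⟩, h'⟩, e⟩
    have := fl_le B i
    unfold Rel at h'
    omega

theorem round_eq {P i i' a a' : ℕ} (h : a < P) (h' : a' < P) (e : P * i + a = P * i' + a') :
    i = i' := by
  have := congrArg (· / P) e
  simpa [Nat.mul_add_div (by omega : 0 < P), Nat.div_eq_of_lt h, Nat.div_eq_of_lt h'] using this

theorem filter_jobs {B B' : Finset ℕ} {i : ℕ} (h : ∀ m < i, (m ∈ B ↔ m ∈ B')) {t : ℤ}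
    (ht : t < (2 * T * i + T : ℕ)) :
    (jobs v T N B).filter (fun j => j.release ≤ t) ⊆
      (jobs v T N B').filter fun j => j.release ≤ t := by
  intro j hj
  obtain ⟨hj, hr⟩ := mem_filter.1 hj
  obtain ⟨m, hm, τ, k, h1, rfl⟩ := mem_jobs.1 hj
  refine mem_filter.2 ⟨mem_jobs.2 ⟨m, hm, τ, k, ?_, rfl⟩, hr⟩
  by_cases e : τ = T
  · have : ((2 * T * m + τ : ℕ) : ℤ) ≤ t := hr
    simpa only [fl, h m (Nat.lt_of_mul_lt_mul_left (a := 2 * T) (by omega))] using h1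
  · simpa only [Rel, e, and_false] using h1

/-- The conflicts and the compatible pairs among the six vertices. -/
structure Frame (G : SimpleGraph V) (v : ℕ → V) : Prop where
  free : ∀ k l, (k = 0 ∧ l = 1 ∨ k = 0 ∧ l = 2 ∨ k = 1 ∧ l = 3 ∨ k = 2 ∧ l = 4) →
    v k ≠ v l ∧ ¬ G.Adj (v k) (v l)
  adj : ∀ k l, (k = 1 ∧ l = 4 ∨ k = 0 ∧ l = 4 ∨ k = 1 ∧ l = 2 ∨ k = 2 ∧ l = 3 ∨ k = 0 ∧ l = 3 ∨
    k < 5 ∧ l = 5) → G.Adj (v k) (v l)

/-- The delay of vertex number `k` in the optimal schedule of a round with ending `β`. -/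
def dl (β k : ℕ) : ℕ := if k = 1 + β ∨ k + β = 4 then 1 else 0

theorem dl_pair {β τ k τ' k' : ℕ} (hT : T % 2 = 1) (hβ : β ≤ 1) (h : Rel T β τ k)
    (h' : Rel T β τ' k') (e : τ + dl β k = τ' + dl β k') (hne : ¬ (τ = τ' ∧ k = k')) :
    (k = 0 ∧ k' = 1 ∨ k = 0 ∧ k' = 2 ∨ k = 1 ∧ k' = 3 ∨ k = 2 ∧ k' = 4) ∨
      (k' = 0 ∧ k = 1 ∨ k' = 0 ∧ k = 2 ∨ k' = 1 ∧ k = 3 ∨ k' = 2 ∧ k = 4) := by
  have k6 : k < 6 ∧ k' < 6 := by unfold Rel at h h'; omega
  obtain ⟨a, b⟩ := k6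
  interval_cases β <;> interval_cases k <;> interval_cases k' <;>
    simp [Rel, dl] at h h' e hne ⊢ <;> omega

theorem dl_lt {β τ k : ℕ} (hT : T % 2 = 1) (hβ : β ≤ 1) (h : Rel T β τ k) :
    k < 6 ∧ τ + dl β k < 2 * T := by
  unfold Rel at h
  unfold dl
  split_ifs <;> omega

variable {G : SimpleGraph V}

theorem opt_le (hG : Frame G v) (hT : T % 2 = 1) (B : Finset ℕ) :
    ∃ s', IsSchedule G (jobs v T N B) s' ∧ maxFlow (jobs v T N B) s' ≤ 2 := by
  have hd : ∀ β k, dl β k ≤ 1 := fun β k => by unfold dl; split_ifs <;> omega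
  refine ⟨fun j => j.release + dl (fl B (j.label / 6)) (j.label % 6),
    ⟨fun j _ => le_add_of_nonneg_right (Int.natCast_nonneg _), fun j hj j' hj' hne e => ?_⟩,
    Finset.sup_le fun j _ => ?_⟩
  swap
  · have := hd (fl B (j.label / 6)) (j.label % 6)
    beta_reduce
    omega
  obtain ⟨i, -, τ, k, h, rfl⟩ := mem_jobs.1 hj
  obtain ⟨i', -, τ', k', h', rfl⟩ := mem_jobs.1 hj'
  obtain ⟨a1, a2⟩ := dl_lt hT (fl_le B i) h
  obtain ⟨b1, b2⟩ := dl_lt hT (fl_le B i') h'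
  have e' : 2 * T * i + (τ + dl (fl B i) k) = 2 * T * i' + (τ' + dl (fl B i') k') := by
    simp only [job, show (6 * i + k) / 6 = i by omega, show (6 * i + k) % 6 = k by omega,
      show (6 * i' + k') / 6 = i' by omega, show (6 * i' + k') % 6 = k' by omega] at e
    omega
  obtain rfl := round_eq a2 b2 e'
  rcases dl_pair hT (fl_le B i) h h' (by omega) (by rintro ⟨rfl, rfl⟩; exact hne rfl) with c | c
  · exact hG.free _ _ c
  · exact ⟨(hG.free _ _ c).1.symm, fun a => (hG.free _ _ c).2 a.symm⟩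

variable (v T N) in
/-- The first job of round `i` runs early together with a job on vertex number two. -/
def Won (rule : OnlineRule V) (B : Finset ℕ) (i : ℕ) : Prop :=
  ∃ t : ℤ, t < (2 * T * i + T : ℕ) ∧
    job v T i 0 0 ∈ rule t ((jobs v T N B).filter fun j => j.release ≤ t) ∧
    ∃ j ∈ rule t ((jobs v T N B).filter fun j => j.release ≤ t), j.vertex = v 2

theorem won_flip (rule : OnlineRule V) (B : Finset ℕ) (i : ℕ) :
    Won v T N rule (B ∆ {i}) i ↔ Won v T N rule B i := by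
  have h : ∀ m < i, (m ∈ B ∆ {i} ↔ m ∈ B) := fun m hm => by simp [mem_symmDiff, hm.ne]
  refine exists_congr fun t => and_congr_right fun ht => ?_
  rw [(filter_jobs h ht).antisymm (filter_jobs (fun m hm => (h m hm).symm) ht)]

/-- Vertex number of the `m`-th counted job of a round. -/
def ka (T β m : ℕ) : ℕ :=
  if m = 2 * T then 0 else if T < m then 5 else if m % 2 = 0 then 2 - β else 3 + β

/-- Release time of the `m`-th counted job of a round. -/
def ta (T m : ℕ) : ℕ := if m = 2 * T then 0 else m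

theorem ka_rel {β m : ℕ} (hT : T % 2 = 1) (hβ : β ≤ 1) (hm : m ≤ 2 * T) :
    Rel T β (ta T m) (ka T β m) := by
  unfold Rel ka ta
  split_ifs <;> omega

theorem ka_spec {β : ℕ} (hβ : β ≤ 1) (m : ℕ) : (ka T β m = 0 ∧ m = 2 * T ∧ ta T m = 0) ∨
    (ta T m = m ∧ (ka T β m = 5 ∨ m ≤ T ∧ (ka T β m = 2 - β ∨ ka T β m = 3 + β))) := by
  unfold ka ta
  split_ifs <;> omega

theorem Frame.pair (hG : Frame G v) : ∀ k < 6, ∀ l < 6, v k ≠ v l → ¬ G.Adj (v k) (v l) →
    k < 5 ∧ l < 5 ∧ (k + l = 1 ∨ k = 0 ∧ l = 2 ∨ k = 2 ∧ l = 0 ∨ k = 1 ∧ l = 3 ∨ k = 3 ∧ l = 1 ∨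
      k = 2 ∧ l = 4 ∨ k = 4 ∧ l = 2 ∨ k + l = 7) := by
  intro k hk l hl c1 c2
  have c3 : k ≠ l := fun c => c1 (congrArg v c)
  have c4 := mt (hG.adj k l) c2
  have c5 := mt (hG.adj l k) fun a => c2 a.symm
  interval_cases k <;> interval_cases l <;> simp at c3 c4 c5 ⊢

section

variable (hG : Frame G v) (hT : T % 2 = 1) {rule : OnlineRule V} {B : Finset ℕ} {s : Job V → ℤ}
  (hf : Follows rule (jobs v T N B) s) (hs : IsSchedule G (jobs v T N B) s)
  (hF : maxFlow (jobs v T N B) s ≤ T)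

include hs in
theorem window {i τ k : ℕ} (hi : i < N) (h : Rel T (fl B i) τ k) :
    job v T i τ k ∈ jobs v T N B ∧ ((2 * T * i + τ : ℕ) : ℤ) ≤ s (job v T i τ k) ∧
      s (job v T i τ k) < (2 * T * i + τ : ℕ) + maxFlow (jobs v T N B) s := by
  have hm : job v T i τ k ∈ jobs v T N B := mem_jobs.2 ⟨i, hi, τ, k, h, rfl⟩
  have h1 : (s (job v T i τ k) + 1 - (2 * T * i + τ : ℕ)).toNat ≤ maxFlow (jobs v T N B) s :=
    Finset.le_sup (f := fun j => (s j + 1 - j.release).toNat) hm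
  exact ⟨hm, hs.1 _ hm, by omega⟩

include hG hf hs hF in
theorem alone {i σ : ℕ} (hi : i < N) (hw : i ∈ B ↔ Won v T N rule B i)
    (h : Rel T (fl B i) σ (2 - fl B i)) :
    s (job v T i 0 0) ≠ s (job v T i σ (2 - fl B i)) := by
  intro e
  rcases fl_spec B i with ⟨hb, c⟩ | ⟨hb, c⟩
  · obtain ⟨t, -, h1, j, h2, h3⟩ := hw.1 hb
    rw [hf t, mem_filter] at h1 h2
    have a := hG.adj (2 - fl B i) 2 (by omega)
    refine (hs.2 _ (window hs hi h).1 j h2.1 (fun c => a.ne ?_) (by omega)).2 (h3 ▸ a)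
    rw [← h3, ← c, job]
  · have h0 := window hs hi (τ := 0) (k := 0) (.inl ⟨rfl, rfl⟩)
    refine hb (hw.2 ⟨s (job v T i 0 0), by omega, ?_, job v T i σ (2 - fl B i), ?_,
      by rw [c]; rfl⟩) <;> rw [hf, mem_filter]
    · exact ⟨h0.1, rfl⟩
    · exact ⟨(window hs hi h).1, e.symm⟩

include hG hT hf hs hF in
theorem counted {i m i' m' : ℕ} (h1 : i < N) (h2 : m ≤ 2 * T) (g1 : i' < N) (g2 : m' ≤ 2 * T)
    (h3 : m = 2 * T → (i ∈ B ↔ Won v T N rule B i))
    (g3 : m' = 2 * T → (i' ∈ B ↔ Won v T N rule B i'))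
    (e : s (job v T i (ta T m) (ka T (fl B i) m)) =
      s (job v T i' (ta T m') (ka T (fl B i') m'))) : i = i' ∧ m = m' := by
  by_contra hne
  have r1 := ka_rel hT (fl_le B i) h2
  have r2 := ka_rel hT (fl_le B i') g2
  obtain ⟨a1, a2, a3⟩ := window hs h1 r1
  obtain ⟨b1, b2, b3⟩ := window hs g1 r2
  have k1 := ka_spec (T := T) (fl_le B i) m
  have k2 := ka_spec (T := T) (fl_le B i') m'
  have f1 := fl_le B i
  have f2 := fl_le B i'
  obtain ⟨c1, c2⟩ := hs.2 _ a1 _ b1 (fun c => hne (by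
    simp only [job, Job.mk.injEq] at c
    obtain rfl : i = i' := by omega
    omega)) e
  obtain ⟨c3, c4, c5⟩ := hG.pair _ (dl_lt hT f1 r1).1 _ (dl_lt hT f2 r2).1 c1 c2
  have t1 : ta T m ≤ T ∧ ta T m' ≤ T := by
    clear a2 a3 b2 b3 hne c5
    omega
  obtain rfl : i = i' := round_eq (P := 2 * T)
    (a := (s (job v T i (ta T m) (ka T (fl B i) m)) - (2 * T * i : ℕ)).toNat)
    (a' := (s (job v T i' (ta T m') (ka T (fl B i') m')) - (2 * T * i' : ℕ)).toNat)
    (by clear k1 k2 c5; omega) (by clear k1 k2 c5; omega) (by clear k1 k2 c5; omega)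
  have c6 : (m = 2 * T ∧ ta T m = 0 ∧ ka T (fl B i) m = 0 ∧ ka T (fl B i) m' = 2 - fl B i) ∨
      (m' = 2 * T ∧ ta T m' = 0 ∧ ka T (fl B i) m' = 0 ∧ ka T (fl B i) m = 2 - fl B i) := by
    clear a2 a3 b2 b3 hne
    rcases k1 with k1 | ⟨-, k1 | ⟨-, k1 | k1⟩⟩ <;> rcases k2 with k2 | ⟨-, k2 | ⟨-, k2 | k2⟩⟩ <;>
      omega
  rcases c6 with ⟨d1, d2, d3, d4⟩ | ⟨d1, d2, d3, d4⟩ <;> rw [d2, d3, d4] at e
  · exact alone hG hf hs hF h1 (h3 d1) (d4 ▸ r2) e
  · exact alone hG hf hs hF h1 (g3 d1) (d4 ▸ r1) e.symm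

end

open Classical in
theorem lost_le (hG : Frame G v) (hT : T % 2 = 1) (hN : N ≤ T) {rule : OnlineRule V}
    {B : Finset ℕ} {s : Job V → ℤ} (hf : Follows rule (jobs v T N B) s)
    (hs : IsSchedule G (jobs v T N B) s) :
    ((range N).filter fun i => (i ∈ B ↔ Won v T N rule B i)).card ≤
      maxFlow (jobs v T N B) s := by
  set L := (range N).filter fun i => (i ∈ B ↔ Won v T N rule B i) with hL
  by_contra hlt
  have hLN : L.card ≤ N := (card_filter_le _ _).trans (card_range N).le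
  have hC : ∀ x ∈ range N ×ˢ range (2 * T) ∪ L ×ˢ {2 * T},
      x.1 < N ∧ x.2 ≤ 2 * T ∧ (x.2 = 2 * T → (x.1 ∈ B ↔ Won v T N rule B x.1)) := by
    intro x hx
    simp only [hL, mem_union, mem_product, mem_range, mem_filter, mem_singleton] at hx
    rcases hx with h | h
    · exact ⟨h.1, h.2.le, fun e => absurd e h.2.ne⟩
    · exact ⟨h.1.1, h.2.le, fun _ => h.1.2⟩
  have hcard := card_le_card_of_injOn (s := range N ×ˢ range (2 * T) ∪ L ×ˢ {2 * T})
    (t := Ico (0 : ℤ) (2 * T * N + maxFlow (jobs v T N B) s : ℕ))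
    (fun x => s (job v T x.1 (ta T x.2) (ka T (fl B x.1) x.2)))
    (fun x hx => by
      obtain ⟨h1, h2, -⟩ := hC x hx
      obtain ⟨-, h3, h4⟩ := window hs h1 (ka_rel hT (fl_le B x.1) h2)
      have h5 : ta T x.2 ≤ 2 * T := by unfold ta; split_ifs <;> omega
      have h6 := Nat.mul_le_mul_left (2 * T) (Nat.succ_le_of_lt h1)
      rw [Nat.mul_succ] at h6
      beta_reduce
      exact mem_coe.2 (mem_Ico.2 ⟨by omega, by omega⟩))
    fun x hx x' hx' e => Prod.ext_iff.2 (counted hG hT hf hs (by omega) (hC x hx).1 (hC x hx).2.1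
      (hC x' hx').1 (hC x' hx').2.1 (hC x hx).2.2 (hC x' hx').2.2 e)
  rw [card_union_of_disjoint (disjoint_left.2 fun x h h' => by
    simp only [mem_product, mem_range, mem_singleton] at h h'
    omega), card_product, card_product, card_range, card_range, card_singleton, Int.card_Ico,
    mul_comm N] at hcard
  omega

theorem sum_flow (hG : Frame G v) (hT : T % 2 = 1) (hN : N ≤ T) {rule : OnlineRule V}
    {s : Finset (Job V) → Job V → ℤ} (hs : ∀ J, Follows rule J (s J) ∧ IsSchedule G J (s J)) :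
    N * 2 ^ N ≤ 2 * ∑ B ∈ (range N).powerset, maxFlow (jobs v T N B) (s (jobs v T N B)) := by
  classical
  refine le_trans (le_of_eq ?_) (Nat.mul_le_mul_left 2
    (sum_le_sum fun B _ => lost_le hG hT hN (hs _).1 (hs _).2))
  simp only [card_filter]
  rw [sum_comm, mul_sum, show N * 2 ^ N = ∑ _i ∈ range N, ∑ _B ∈ (range N).powerset, 1 by simp]
  refine sum_congr rfl fun i hi => ?_
  have hm : ∀ B ∈ (range N).powerset, B ∆ {i} ∈ (range N).powerset := fun B hB =>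
    mem_powerset.2 (symmDiff_le_sup.trans
      (union_subset (mem_powerset.1 hB) (singleton_subset_iff.2 hi)))
  rw [two_mul]
  nth_rewrite 3 [sum_nbij' (t := (range N).powerset) (· ∆ {i}) (· ∆ {i}) hm hm
    (fun _ _ => symmDiff_symmDiff_cancel_right _ _) (fun _ _ => symmDiff_symmDiff_cancel_right _ _)
    (g := fun B => if (i ∉ B ↔ Won v T N rule B i) then 1 else 0) fun B _ => ?_]
  · rw [← sum_add_distrib]
    refine sum_congr rfl fun B _ => ?_
    by_cases a : i ∈ B <;> by_cases b : Won v T N rule B i <;> simp [a, b]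
  · simp [won_flip, mem_symmDiff]

end Pool.Agent.Lib.MP_806e08_lc
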