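import Pool.Agent.Lib.MP_806e08_lc.Count

/-!
Tokens walking through an acyclic system of arcs on the nodes `0, 1, 2, ...`, one token per
time step, each taking at every node it visits the arc with the oldest unconsumed item.
-/

namespace Pool.Agent.Lib.MP_806e08_lc

open Classical

/-- A system of arcs. -/
structure ArcSys (E : Type) where
  src : E → ℕ
  dst : E → ℕ
  lt : ∀ e, src e < dst e
  outA : ℕ → Finset E
  inA : ℕ → Finset E
  mem_out : ∀ p e, e ∈ outA p ↔ src e = p
  mem_in : ∀ p e, e ∈ inA p ↔ dst e = p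
  ne : ∀ p, (outA p).Nonempty

namespace ArcSys

variable {E : Type} (S : ArcSys E)

noncomputable def pick (h : E → ℕ) (p : ℕ) : E :=
  Classical.choose (Finset.exists_min_image (S.outA p) h (S.ne p))

lemma src_pick (h : E → ℕ) (p : ℕ) : S.src (S.pick h p) = p :=
  (S.mem_out p _).mp (Classical.choose_spec (Finset.exists_min_image (S.outA p) h (S.ne p))).1

lemma pick_le (h : E → ℕ) (p : ℕ) {e : E} (he : S.src e = p) : h (S.pick h p) ≤ h e :=
  (Classical.choose_spec (Finset.exists_min_image (S.outA p) h (S.ne p))).2 e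
    ((S.mem_out p e).mpr he)

noncomputable def pos (h : E → ℕ) : ℕ → ℕ
  | 0 => 0
  | k + 1 => S.dst (S.pick h (pos h k))

lemma pos_strictMono (h : E → ℕ) : StrictMono (S.pos h) := by
  apply strictMono_nat_of_lt_succ
  intro k
  have h1 := S.lt (S.pick h (S.pos h k))
  rw [S.src_pick] at h1
  exact h1

def Used (h : E → ℕ) (e : E) : Prop := ∃ k, S.pick h (S.pos h k) = e

def Visited (h : E → ℕ) (p : ℕ) : Prop := ∃ k, S.pos h k = p

lemma used_iff (h : E → ℕ) (e : E) :
    S.Used h e ↔ S.Visited h (S.src e) ∧ S.pick h (S.src e) = e := by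
  constructor
  · rintro ⟨k, rfl⟩
    rw [S.src_pick]
    exact ⟨⟨k, rfl⟩, rfl⟩
  · rintro ⟨⟨k, hk⟩, h2⟩
    exact ⟨k, by rw [hk, h2]⟩

lemma sum_out (h : E → ℕ) (p : ℕ) :
    ∑ e ∈ S.outA p, (if S.Used h e then 1 else 0) = if S.Visited h p then 1 else 0 := by
  by_cases hv : S.Visited h p
  · rw [if_pos hv, Finset.sum_eq_single (S.pick h p)]
    · rw [if_pos]
      rw [S.used_iff, S.src_pick]
      exact ⟨hv, rfl⟩
    · intro e he hne
      rw [if_neg]
      rw [S.used_iff, (S.mem_out p e).mp he]
      exact fun h' => hne h'.2.symm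
    · intro hn
      exact (hn ((S.mem_out p _).mpr (S.src_pick h p))).elim
  · rw [if_neg hv]
    apply Finset.sum_eq_zero
    intro e he
    rw [if_neg]
    rw [S.used_iff, (S.mem_out p e).mp he]
    exact fun h' => hv h'.1

lemma sum_in (h : E → ℕ) (q : ℕ) :
    ∑ e ∈ S.inA (q + 1), (if S.Used h e then 1 else 0) =
      if S.Visited h (q + 1) then 1 else 0 := by
  by_cases hv : S.Visited h (q + 1)
  · rw [if_pos hv]
    obtain ⟨k, hk⟩ := hv
    obtain ⟨k, rfl⟩ : ∃ k', k = k' + 1 := by
      cases k with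
      | zero => simp [pos] at hk
      | succ k => exact ⟨k, rfl⟩
    rw [Finset.sum_eq_single (S.pick h (S.pos h k))]
    · rw [if_pos ⟨k, rfl⟩]
    · intro e he hne
      rw [if_neg]
      rintro ⟨k', rfl⟩
      have h1 : S.pos h (k' + 1) = S.pos h (k + 1) := by
        rw [hk]
        exact (S.mem_in _ _).mp he
      have h2 := (S.pos_strictMono h).injective h1
      apply hne
      rw [show k' = k by omega]
    · intro hn
      exact (hn ((S.mem_in _ _).mpr hk)).elim
  · rw [if_neg hv]
    apply Finset.sum_eq_zero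
    intro e he
    rw [if_neg]
    rintro ⟨k, rfl⟩
    exact hv ⟨k + 1, (S.mem_in _ _).mp he⟩

lemma used_disj (h : E → ℕ) {e e' : E} (he : S.Used h e) (he' : S.Used h e') (hne : e ≠ e') :
    S.dst e ≤ S.src e' ∨ S.dst e' ≤ S.src e := by
  obtain ⟨k, rfl⟩ := he
  obtain ⟨k', rfl⟩ := he'
  rw [S.src_pick, S.src_pick]
  rcases lt_trichotomy k k' with hk | hk | hk
  · left
    exact (S.pos_strictMono h).monotone (show k + 1 ≤ k' by omega)
  · exact (hne (by rw [hk])).elim
  · right
    exact (S.pos_strictMono h).monotone (show k' + 1 ≤ k by omega)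

/-- consumed counts after `t` tokens -/
noncomputable def cons (N : E → ℕ → ℕ) (C : ℕ) : ℕ → E → ℕ
  | 0 => fun _ => 0
  | t + 1 => fun e => cons N C t e +
      if S.Used (fun e' => hd (N e') (cons N C t e') (t + 1 + C)) e then 1 else 0

/-- heads at time `t` -/
noncomputable def wH (N : E → ℕ → ℕ) (C t : ℕ) : E → ℕ :=
  fun e' => hd (N e') (S.cons N C t e') (t + 1 + C)

lemma cons_succ (N : E → ℕ → ℕ) (C t : ℕ) (e : E) :
    S.cons N C (t + 1) e = S.cons N C t e + if S.Used (S.wH N C t) e then 1 else 0 := rfl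

lemma cons_congr {N N' : E → ℕ → ℕ} (C : ℕ) {x : ℕ} (h : ∀ e s, s ≤ x → N e s = N' e s) :
    ∀ t, t + C ≤ x ∨ t = 0 → S.cons N C t = S.cons N' C t := by
  intro t
  induction t with
  | zero => intro _; rfl
  | succ n ih =>
    intro hn
    have hn' : n + 1 + C ≤ x := by omega
    have ih' := ih (by omega)
    have hfun : S.wH N C n = S.wH N' C n := by
      funext e
      unfold wH
      rw [ih', hd_congr (fun s hs => h e s (by omega))]
    funext e
    rw [cons_succ, cons_succ, ih', hfun]

lemma sum_cons_zero (N : E → ℕ → ℕ) (C t : ℕ) : ∑ e ∈ S.outA 0, S.cons N C t e = t := by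
  induction t with
  | zero => simp [cons]
  | succ n ih =>
    simp only [cons_succ, Finset.sum_add_distrib, ih, S.sum_out]
    rw [if_pos ⟨0, rfl⟩]

lemma sum_cons_succ (N : E → ℕ → ℕ) (C t q : ℕ) :
    ∑ e ∈ S.outA (q + 1), S.cons N C t e = ∑ e ∈ S.inA (q + 1), S.cons N C t e := by
  induction t with
  | zero => simp [cons]
  | succ n ih =>
    simp only [cons_succ, Finset.sum_add_distrib, ih, S.sum_out, S.sum_in]

/-- first-in-first-out at one node -/
lemma node_bound {N : E → ℕ → ℕ} (h0 : ∀ e, N e 0 = 0) (hN : ∀ e, Monotone (N e)) {C D p : ℕ}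
    (hD : D ≤ C)
    (hlo : ∀ t, ∑ e ∈ S.outA p, N e (t - D) ≤ ∑ e ∈ S.outA p, S.cons N C t e)
    (hhi : ∀ t, ∑ e ∈ S.outA p, S.cons N C t e ≤ ∑ e ∈ S.outA p, N e (t + D)) :
    ∀ t e, S.src e = p → N e (t - D) ≤ S.cons N C t e ∧ S.cons N C t e ≤ N e (t + D) := by
  have main : ∀ t, (∀ e, S.src e = p → S.cons N C t e ≤ N e (t + D)) ∧
      ∀ e e', S.src e = p → S.src e' = p → ∀ s, S.cons N C t e < N e s →
        S.cons N C t e' ≤ N e' s := by
    intro t
    induction t with
    | zero => exact ⟨fun e _ => Nat.zero_le _, fun e e' _ _ s _ => Nat.zero_le _⟩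
    | succ t ih =>
      obtain ⟨ih1, ih2⟩ := ih
      have key : ∀ e, S.src e = p → S.Used (S.wH N C t) e →
          S.wH N C t e < t + 1 + D ∧ S.cons N C t e < N e (S.wH N C t e + 1) := by
        intro e he hu
        obtain ⟨hv, hp⟩ := (S.used_iff _ _).mp hu
        rw [he] at hv hp
        have h1 := hhi (t + 1)
        simp only [cons_succ, Finset.sum_add_distrib, S.sum_out, if_pos hv] at h1
        have h2 : ∃ e' ∈ S.outA p, S.cons N C t e' < N e' (t + 1 + D) := by
          by_contra hc
          push Not at hc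
          have := Finset.sum_le_sum hc
          omega
        obtain ⟨e', he', h3⟩ := h2
        have h4 : S.wH N C t e' < t + 1 + D := hd_lt_of_lt (h0 e') (hN e') h3
        have h5 := S.pick_le (S.wH N C t) p ((S.mem_out p e').mp he')
        rw [hp] at h5
        exact ⟨by omega, lt_of_hd_lt (C := t + 1 + C) (Nat.lt_succ_self _) (by omega)⟩
      constructor
      · intro e he
        rw [cons_succ]
        by_cases hu : S.Used (S.wH N C t) e
        · rw [if_pos hu]
          obtain ⟨h1, h2⟩ := key e he hu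
          have := hN e (show S.wH N C t e + 1 ≤ t + 1 + D by omega)
          omega
        · rw [if_neg hu]
          exact (ih1 e he).trans (hN e (by omega))
      · intro e e' he he' s hs
        have hs' : S.cons N C t e < N e s := by
          rw [cons_succ] at hs
          omega
        rw [cons_succ]
        by_cases hu : S.Used (S.wH N C t) e'
        · rw [if_pos hu]
          obtain ⟨h1, h2⟩ := key e' he' hu
          have h3 : S.wH N C t e < s := hd_lt_of_lt (h0 e) (hN e) hs'
          have h4 := S.pick_le (S.wH N C t) p he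
          obtain ⟨-, hp⟩ := (S.used_iff _ _).mp hu
          rw [he'] at hp
          rw [hp] at h4
          have := hN e' (show S.wH N C t e' + 1 ≤ s by omega)
          omega
        · rw [if_neg hu]
          exact ih2 e e' he he' s hs'
  intro t e he
  refine ⟨?_, (main t).1 e he⟩
  by_contra hc
  push Not at hc
  have h1 : ∑ e ∈ S.outA p, S.cons N C t e < ∑ e ∈ S.outA p, N e (t - D) :=
    Finset.sum_lt_sum
      (fun e' he' => (main t).2 e e' he ((S.mem_out p e').mp he') _ hc)
      ⟨e, (S.mem_out p e).mpr he, hc⟩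
  have h2 := hlo t
  omega

theorem walk_bound {N : E → ℕ → ℕ} (h0 : ∀ e, N e 0 = 0) (hN : ∀ e, Monotone (N e)) {A C : ℕ}
    (h20 : ∀ t, t - A ≤ ∑ e ∈ S.outA 0, N e t)
    (h30 : ∀ t, ∑ e ∈ S.outA 0, N e (t - A) ≤ t)
    (h2 : ∀ q t, ∑ e ∈ S.inA (q + 1), N e (t - A) ≤ ∑ e ∈ S.outA (q + 1), N e t)
    (h3 : ∀ q t, ∑ e ∈ S.outA (q + 1), N e (t - A) ≤ ∑ e ∈ S.inA (q + 1), N e t) :
    ∀ p, (p + 1) * A ≤ C → ∀ t e, S.src e = p →
      N e (t - (p + 1) * A) ≤ S.cons N C t e ∧ S.cons N C t e ≤ N e (t + (p + 1) * A) := by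
  intro p
  induction p using Nat.strong_induction_on with
  | _ p ih =>
    intro hp
    apply S.node_bound h0 hN hp
    · intro t
      cases p with
      | zero =>
        rw [S.sum_cons_zero]
        simpa using h30 t
      | succ q =>
        rw [S.sum_cons_succ]
        have h4 := h3 q (t - (q + 1) * A)
        rw [show t - (q + 1) * A - A = t - (q + 1 + 1) * A by
          rw [Nat.sub_sub]; congr 1; ring] at h4
        refine h4.trans (Finset.sum_le_sum fun e he => ?_)
        have h5 : S.src e < q + 1 := by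
          have := S.lt e
          rwa [(S.mem_in _ _).mp he] at this
        have h6 : (S.src e + 1) * A ≤ (q + 1) * A := Nat.mul_le_mul_right A (by omega)
        have h7 : (q + 1) * A ≤ (q + 1 + 1) * A := Nat.mul_le_mul_right A (by omega)
        exact (hN e (by omega)).trans (ih (S.src e) h5 (by omega) t e rfl).1
    · intro t
      cases p with
      | zero =>
        rw [S.sum_cons_zero]
        have := h20 (t + A)
        simpa using this
      | succ q =>
        rw [S.sum_cons_succ]
        have h4 := h2 q (t + (q + 1 + 1) * A)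
        rw [show t + (q + 1 + 1) * A - A = t + (q + 1) * A by
          rw [show (q + 1 + 1) * A = (q + 1) * A + A by ring]; omega] at h4
        refine (Finset.sum_le_sum fun e he => ?_).trans h4
        have h5 : S.src e < q + 1 := by
          have := S.lt e
          rwa [(S.mem_in _ _).mp he] at this
        have h6 : (S.src e + 1) * A ≤ (q + 1) * A := Nat.mul_le_mul_right A (by omega)
        have h7 : (q + 1) * A ≤ (q + 1 + 1) * A := Nat.mul_le_mul_right A (by omega)
        exact (ih (S.src e) h5 (by omega) t e rfl).2.trans (hN e (by omega))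

end ArcSys

end Pool.Agent.Lib.MP_806e08_lc
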